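import Pool.Agent.KS6_32.FI1.Count

/-!
The first moment bound for the total length of the block edges (project MP_572a3e_an, `L^1`).
-/

set_option autoImplicit false

namespace Pool.Agent.KS6_32.FI1

open Finset MeasureTheory Pool.Agent.TH722.FI Pool.Agent.TH929.FI

variable {r : ℕ} {X : Type*} [MeasurableSpace X] {μ : Measure X} [IsProbabilityMeasure μ]
  [MulAction (FreeGroup (Fin r)) X]
  {T : FreeGroup (Fin r) → X → X} {E : Fin r → Set X} {key : X → ℝ}
  {β : Fin r → X → FreeGroup (Fin r)}

/-- oriented block edges of length at least `n` -/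
def PI (T : FreeGroup (Fin r) → X → X) (E : Fin r → Set X) (key : X → ℝ) (n : ℕ)
    (g : FreeGroup (Fin r)) : Set X :=
  {y | Bkp T E key y g ∧ key y < key (g • y) ∧ n ≤ g.norm}

/-- non-chosen edges of length at least `n` -/
def QI (E : Fin r → Set X) (β : Fin r → X → FreeGroup (Fin r)) (n : ℕ) (j : Fin r) : Set X :=
  {y | y ∉ E j ∧ n ≤ (β j y).norm}

theorem pb_mono (n : ℕ) (g : FreeGroup (Fin r)) : Monotone fun L => PB T E key β n L g := by
  intro L L' hL y hy
  exact ⟨hy.1, hy.2.1, hy.2.2.1, fun b j h => ⟨(hy.2.2.2 b j h).1.trans hL,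
    (hy.2.2.2 b j h).2.trans hL⟩⟩

theorem pb_union (hC : Common μ T) (hβ : ∀ i x, T (FreeGroup.of i) x = β i x • x) (n : ℕ)
    (g : FreeGroup (Fin r)) : ⋃ L, PB T E key β n L g = PI T E key n g := by
  ext y
  rw [Set.mem_iUnion]
  constructor
  · rintro ⟨L, hL⟩
    exact ⟨hL.1, hL.2.1, hL.2.2.1⟩
  · rintro ⟨h1, h2, h3⟩
    obtain ⟨t1, -, -, -⟩ := Jobs.tg_tree T hC y
    obtain ⟨e1, e2, e3⟩ := tg_enum hC hβ y
    obtain ⟨p⟩ := t1.connected.preconnected 1 g
    obtain ⟨Φ0, h0, -⟩ := grad t1 (fun f : FreeGroup (Fin r) × Fin r => f.1)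
      (fun f => β f.2 (f.1 • y) * f.1) e1 e2 e3 p
    refine ⟨∑ f ∈ Φ0, ((β f.2 (f.1 • y)).norm + f.1.norm), h1, h2, h3, fun b j hne => ?_⟩
    have hmem : (b, j) ∈ Φ0 := by
      by_contra hn
      exact hne (h0 (b, j) hn)
    have := single_le_sum (f := fun f : FreeGroup (Fin r) × Fin r =>
      (β f.2 (f.1 • y)).norm + f.1.norm) (fun _ _ => Nat.zero_le _) hmem
    simp only at this
    constructor <;> omega

theorem qi_meas [StandardBorelSpace X] (hC : Common μ T) (hE : ∀ i, MeasurableSet (E i))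
    (hβ : ∀ i x, T (FreeGroup.of i) x = β i x • x) (n : ℕ) (j : Fin r) :
    MeasurableSet (QI E β n j) :=
  (hE j).compl.inter (measurableSet_setOfPred.mpr (beta_pred T hC β hβ j (fun g => n ≤ g.norm)))

theorem pi_meas [StandardBorelSpace X] (hC : Common μ T) (hE : ∀ i, MeasurableSet (E i))
    (hkey : Measurable key) (n : ℕ) (g : FreeGroup (Fin r)) :
    MeasurableSet (PI T E key n g) := by
  unfold PI
  apply measurableSet_setOfPred.mpr
  refine Measurable.and ?_ (Measurable.and ?_ measurable_const)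
  · exact (hg_adj_meas T hC E hE key hkey 1 g).and (cc_adj_meas T hC E hE 1 g).not
  · exact measurableSet_setOfPred.mp (measurableSet_lt hkey (hkey.comp (hC.mpU g).measurable))

theorem count_inf [StandardBorelSpace X] (hC : Common μ T) (hE : ∀ i, MeasurableSet (E i))
    (hkey : Measurable key) (hki : Function.Injective key)
    (hβ : ∀ i x, T (FreeGroup.of i) x = β i x • x) (n : ℕ) (S : Finset (FreeGroup (Fin r))) :
    ∑ g ∈ S, μ.real (PI T E key n g) ≤ ∑ j, μ.real (QI E β n j) := by
  have h1 : Filter.Tendsto (fun L : ℕ => ∑ g ∈ S, μ.real (PB T E key β n L g)) Filter.atTop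
      (nhds (∑ g ∈ S, μ.real (PI T E key n g))) := by
    refine tendsto_finset_sum _ fun g _ => ?_
    rw [← pb_union hC hβ n g]
    have := tendsto_measure_iUnion_atTop (μ := μ) (pb_mono (T := T) (E := E) (key := key)
      (β := β) n g)
    exact (ENNReal.tendsto_toReal (measure_ne_top μ _)).comp this
  refine le_of_tendsto' h1 fun L => ?_
  have h2 := count_le hC hE hkey hki hβ n L S
  rw [sum_coe_sort S (fun g => μ.real (PB T E key β n L g))] at h2
  refine h2.trans (sum_le_sum fun j _ => measureReal_mono ?_ (measure_ne_top _ _))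
  intro y hy
  exact ⟨hy.1, hy.2.1⟩

theorem bkp_symm (hC : Common μ T) (x : X) (g : FreeGroup (Fin r)) :
    Bkp T E key (g • x) g⁻¹ ↔ Bkp T E key x g := by
  rw [bkp_iff hC, inv_mul_cancel]
  unfold Bkp
  constructor
  · rintro ⟨a, b⟩; exact ⟨a.symm, fun h => b h.symm⟩
  · rintro ⟨a, b⟩; exact ⟨a.symm, fun h => b h.symm⟩

theorem count_all [StandardBorelSpace X] (hC : Common μ T) (hE : ∀ i, MeasurableSet (E i))
    (hkey : Measurable key) (hki : Function.Injective key)
    (hβ : ∀ i x, T (FreeGroup.of i) x = β i x • x) (n : ℕ) (S : Finset (FreeGroup (Fin r))) :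
    ∑ g ∈ S, μ.real {y : X | Bkp T E key y g ∧ n ≤ g.norm} ≤ 2 * ∑ j, μ.real (QI E β n j) := by
  classical
  have h1 : ∀ g : FreeGroup (Fin r), μ.real {y : X | Bkp T E key y g ∧ n ≤ g.norm} ≤
      μ.real (PI T E key n g) + μ.real (PI T E key n g⁻¹) := by
    intro g
    have e : μ.real (PI T E key n g⁻¹) = μ.real ((fun x : X => g • x) ⁻¹' (PI T E key n g⁻¹)) :=
      ((hC.mpU g).measureReal_preimage (pi_meas hC hE hkey n g⁻¹).nullMeasurableSet).symm
    rw [e]
    refine (measureReal_mono ?_ (measure_ne_top _ _)).trans (measureReal_union_le _ _)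
    rintro y ⟨hy, hn⟩
    rcases lt_trichotomy (key y) (key (g • y)) with h | h | h
    · exact Or.inl ⟨hy, h, hn⟩
    · exfalso
      have h2 := hC.freeU g y (hki h).symm
      have h3 := hy.1.ne
      exact h3 h2.symm
    · refine Or.inr ⟨(bkp_symm hC y g).mpr hy, ?_, ?_⟩
      · change key (g • y) < key (g⁻¹ • g • y)
        rw [inv_smul_smul]
        exact h
      · rwa [FreeGroup.norm_inv_eq]
  calc ∑ g ∈ S, μ.real {y : X | Bkp T E key y g ∧ n ≤ g.norm}
      ≤ ∑ g ∈ S, (μ.real (PI T E key n g) + μ.real (PI T E key n g⁻¹)) :=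
        sum_le_sum fun g _ => h1 g
    _ = ∑ g ∈ S, μ.real (PI T E key n g) + ∑ g ∈ S.image (·⁻¹), μ.real (PI T E key n g) := by
        rw [sum_add_distrib, sum_image (fun g _ g' _ h => inv_injective h)]
    _ ≤ _ := by
        have a := count_inf hC hE hkey hki hβ n S
        have b := count_inf hC hE hkey hki hβ n (S.image (·⁻¹))
        linarith

/-- **First moment bound for the block edges.** -/
theorem block_bound1 [StandardBorelSpace X] (T : FreeGroup (Fin r) → X → X) (hC : Common μ T)
    (E : Fin r → Set X) (hE : ∀ i, MeasurableSet (E i)) (key : X → ℝ) (hkey : Measurable key)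
    (hki : Function.Injective key)
    (β : Fin r → X → FreeGroup (Fin r)) (hβ : ∀ i x, T (FreeGroup.of i) x = β i x • x)
    (hβ1 : ∀ i, Integrable (fun x => ((β i x).norm : ℝ)) μ) (S : Finset (FreeGroup (Fin r))) :
    ∑ g ∈ S, μ.real {x | (HG T E key x).Adj 1 g ∧ ¬ (CC T E x).Adj 1 g} * ((g.norm : ℝ) + 1) ≤
      ∑ i, ∫ x in (E i)ᶜ, 2 * (((β i x).norm : ℝ) + 1) ∂μ := by
  classical
  obtain ⟨M, hM⟩ : ∃ M, ∀ g ∈ S, g.norm ≤ M :=
    ⟨∑ g ∈ S, g.norm, fun g hg => single_le_sum (f := fun g : FreeGroup (Fin r) => g.norm)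
      (fun _ _ => Nat.zero_le _) hg⟩
  have hcnt : ∀ a M : ℕ, ((range (M + 1)).filter fun n => n ≤ a).card ≤ a + 1 := by
    intro a M
    calc ((range (M + 1)).filter fun n => n ≤ a).card ≤ (range (a + 1)).card := by
          refine card_le_card fun n hn => ?_
          rw [mem_filter] at hn
          rw [mem_range]; omega
      _ = a + 1 := card_range _
  have hcnt2 : ∀ a M : ℕ, a ≤ M → ((range (M + 1)).filter fun n => n ≤ a).card = a + 1 := by
    intro a M ha
    have : (range (M + 1)).filter (fun n => n ≤ a) = range (a + 1) := by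
      ext n
      rw [mem_filter, mem_range, mem_range]
      omega
    rw [this, card_range]
  calc ∑ g ∈ S, μ.real {x | (HG T E key x).Adj 1 g ∧ ¬ (CC T E x).Adj 1 g} * ((g.norm : ℝ) + 1)
      = ∑ g ∈ S, ∑ n ∈ range (M + 1), μ.real {y : X | Bkp T E key y g ∧ n ≤ g.norm} := by
        refine sum_congr rfl fun g hg => ?_
        have e1 : ∀ n ∈ range (M + 1), μ.real {y : X | Bkp T E key y g ∧ n ≤ g.norm} =
            if n ≤ g.norm then μ.real {x | (HG T E key x).Adj 1 g ∧ ¬ (CC T E x).Adj 1 g}
            else 0 := by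
          intro n _
          split_ifs with h
          · congr 1
            ext y
            exact ⟨fun hy => hy.1, fun hy => ⟨hy, h⟩⟩
          · have : {y : X | Bkp T E key y g ∧ n ≤ g.norm} = ∅ := by
              ext y
              exact ⟨fun hy => h hy.2, fun hy => absurd hy (Set.notMem_empty y)⟩
            rw [this, measureReal_empty]
        rw [sum_congr rfl e1, ← sum_filter, sum_const, hcnt2 _ _ (hM g hg), nsmul_eq_mul,
          mul_comm]
        push_cast
        ring
    _ = ∑ n ∈ range (M + 1), ∑ g ∈ S, μ.real {y : X | Bkp T E key y g ∧ n ≤ g.norm} := sum_comm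
    _ ≤ ∑ n ∈ range (M + 1), 2 * ∑ j, μ.real (QI E β n j) :=
        sum_le_sum fun n _ => count_all hC hE hkey hki hβ n S
    _ = ∑ j, 2 * ∑ n ∈ range (M + 1), μ.real (QI E β n j) := by
        rw [← mul_sum, sum_comm, mul_sum]
    _ ≤ ∑ i, ∫ x in (E i)ᶜ, 2 * (((β i x).norm : ℝ) + 1) ∂μ := by
        refine sum_le_sum fun j _ => ?_
        rw [integral_const_mul]
        refine mul_le_mul_of_nonneg_left ?_ (by norm_num)
        have e2 : ∀ n, μ.real (QI E β n j) =
            ∫ x in (E j)ᶜ, {y : X | n ≤ (β j y).norm}.indicator (fun _ => (1 : ℝ)) x ∂μ := by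
          intro n
          have hm : MeasurableSet {y : X | n ≤ (β j y).norm} :=
            measurableSet_setOfPred.mpr (beta_pred T hC β hβ j (fun g => n ≤ g.norm))
          rw [integral_indicator_const _ hm, smul_eq_mul, mul_one, measureReal_restrict_apply hm]
          congr 1
          ext y
          exact ⟨fun hy => ⟨hy.2, hy.1⟩, fun hy => ⟨hy.2, hy.1⟩⟩
        have hmn : ∀ n : ℕ, MeasurableSet {y : X | n ≤ (β j y).norm} := fun n =>
          measurableSet_setOfPred.mpr (beta_pred T hC β hβ j (fun g => n ≤ g.norm))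
        simp only [e2]
        rw [← integral_finsetSum _ (fun n _ => (integrable_const _).indicator (hmn n))]
        refine integral_mono ?_ ?_ fun x => ?_
        · exact integrable_finsetSum _ fun n _ => (integrable_const _).indicator (hmn n)
        · exact ((hβ1 j).add (integrable_const _)).integrableOn
        · simp only [Set.indicator_apply, Set.mem_setOf_eq]
          rw [← sum_filter, sum_const, nsmul_eq_mul, mul_one]
          exact_mod_cast hcnt (β j x).norm M

end Pool.Agent.KS6_32.FI1
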