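import Pool.Agent.KS6_32.FI1.Pack

/-!
Comparison of the two functionals under `L^1` cocycles. Adapted from the library module
`TH722.FI.CS` (project MP_572a3e_an).
-/

set_option autoImplicit false

namespace Pool.Agent.KS6_32.FI1
open MeasureTheory Set Filter Pool.Agent.TH722.FI Pool.Agent.TH722.FI.Jobs
open scoped Topology ENNReal

variable {r : ℕ} {X : Type*} [MeasurableSpace X] {μ : Measure X}
  [IsProbabilityMeasure μ] [MulAction (FreeGroup (Fin r)) X]

theorem cs1 [StandardBorelSpace X] (T : FreeGroup (Fin r) → X → X) (hC : Common μ T)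
    (β : Fin r → X → FreeGroup (Fin r)) (hβ : ∀ i x, T (FreeGroup.of i) x = β i x • x)
    (hβ1 : ∀ i, Integrable (fun x => ((β i x).norm : ℝ)) μ)
    (α : Fin r → X → FreeGroup (Fin r)) (hα : ∀ i x, FreeGroup.of i • x = T (α i x) x)
    (hα1 : ∀ i, Integrable (fun x => ((α i x).norm : ℝ)) μ)
    {P P' : Type*} {φ : X → P} (hφ : IsLab μ φ) (hgφ : Gen μ T φ) {φ' : X → P'}
    (hφ' : IsLab μ φ') (hgφ' : Gen μ (fun (g : FreeGroup (Fin r)) (x : X) => g • x) φ')
    (n : ℕ) (ε : ℝ) (hε : 0 < ε) :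
    ∃ m, BF μ (fun (g : FreeGroup (Fin r)) (x : X) => g • x)
      (ballLab (fun (g : FreeGroup (Fin r)) (x : X) => g • x) φ' m) ≤
      BF μ T (ballLab T φ n) + ε := by
  classical
  have hU : FreeAct μ (fun (g : FreeGroup (Fin r)) (x : X) => g • x) :=
    ⟨fun x => one_smul _ x, fun g h x => mul_smul g h x, hC.mpU, hC.freeU⟩
  have huniq : ∀ (a b : FreeGroup (Fin r)) (x : X), a • x = b • x → a = b := by
    intro a b x h
    have h2 : (b⁻¹ * a) • x = x := by rw [mul_smul, h, inv_smul_smul]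
    exact (inv_mul_eq_one.mp (hC.freeU _ _ h2)).symm
  -- measurability of β
  have hβm : ∀ i c, MeasurableSet {x | β i x = c} := by
    intro i c
    have : {x | β i x = c} = {x | T (FreeGroup.of i) x = c • x} := by
      ext x
      simp only [mem_setOf_eq]
      constructor
      · rintro rfl; exact hβ i x
      · intro h; rw [hβ] at h; exact huniq _ _ _ h
    rw [this]
    exact measurableSet_eq_fun (hC.actT.mp _).measurable (hC.mpU c).measurable
  have hβl : ∀ i, IsLab μ (β i) := fun i =>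
    norm_ent r (β i) (hβm i) (hβ1 i)
  let βm : Fin r → X → FreeGroup (Fin r) := fun i x => (β i (T (FreeGroup.of i)⁻¹ x))⁻¹
  have hcan : ∀ (k : FreeGroup (Fin r)) (y : X), T k (T k⁻¹ y) = y := by
    intro k y; rw [← hC.actT.mul, mul_inv_cancel, hC.actT.one]
  have hβm' : ∀ i x, T (FreeGroup.of i)⁻¹ x = βm i x • x := by
    intro i x
    have h1 := hβ i (T (FreeGroup.of i)⁻¹ x)
    rw [hcan] at h1
    simp only [βm]
    rw [eq_inv_smul_iff]
    exact h1.symm
  have hβml : ∀ i, IsLab μ (βm i) := by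
    intro i
    refine (lab_of_finer (lab_comp (hC.actT.mp (FreeGroup.of i)⁻¹) (hβl i)).1 ?_).1
    intro x y hxy
    simp only [βm]
    have : β i (T (FreeGroup.of i)⁻¹ x) = β i (T (FreeGroup.of i)⁻¹ y) := hxy
    rw [this]
  -- the label ψ0
  have hψ : IsLab μ (fun x => (φ' x, ((fun i => β i x), (fun i => βm i x)))) :=
    (lab_pair hφ' (lab_pair (lab_pi β hβl) (lab_pi βm hβml)).1).1
  obtain ⟨e0, he0, he0ε⟩ : ∃ e0 : ℝ, 0 < e0 ∧ 20 * e0 = ε := ⟨ε / 20, by positivity, by ring⟩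
  obtain ⟨η, hη, hrη⟩ : ∃ η : ℝ, 0 < η ∧ (r : ℝ) * η ≤ e0 := by
    refine ⟨e0 / (r + 1), by positivity, ?_⟩
    rw [mul_div_assoc', div_le_iff₀ (by positivity)]
    nlinarith
  obtain ⟨n0, hn0⟩ := BF_join_gen T hC.actT hφ hgφ hψ e0 he0
  obtain ⟨hχ, hχb⟩ := hn0 (max n n0) (le_max_right _ _)
  have hanti := (BF_antitone T hC.actT hφ).2 (le_max_left n n0)
  generalize hχdef : (fun x => (ballLab T φ (max n n0) x,
    (φ' x, ((fun i => β i x), (fun i => βm i x))))) = χ at hχ hχb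
  have hχfin : ∀ x y, χ x = χ y → φ' x = φ' y ∧ (∀ i, β i x = β i y) ∧
      (∀ i, βm i x = βm i y) := by
    intro x y h
    rw [← hχdef] at h
    simp only [Prod.mk.injEq] at h
    exact ⟨h.2.1, fun i => congrFun h.2.2.1 i, fun i => congrFun h.2.2.2 i⟩
  have hχgen : ∃ π : _ → P', ∀ x, φ' x = π (χ x) := ⟨fun t => t.2.1, fun x => by rw [← hχdef]⟩
  obtain ⟨π, hπ⟩ := hχgen
  -- choice of δ
  have hinfo0 : ∀ x, 0 ≤ info μ χ x := by
    intro x
    unfold info
    rw [neg_nonneg]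
    exact Real.log_nonpos measureReal_nonneg measureReal_le_one
  obtain ⟨da, hda, hda'⟩ := abs_cont (info μ χ) hχ.int hinfo0 η hη
  obtain ⟨db, hdb, hdb'⟩ := binEnt_small r e0 he0
  obtain ⟨dc, hdc, hdc'⟩ := binEnt_small r η hη
  obtain ⟨δ, hδ, h1, h2, h3, h4⟩ : ∃ δ > 0, δ ≤ da ∧ δ ≤ db ∧ δ ≤ dc ∧ δ ≤ η :=
    ⟨min (min da db) (min dc η), lt_min (lt_min hda hdb) (lt_min hdc hη),
      (min_le_left _ _).trans (min_le_left _ _), (min_le_left _ _).trans (min_le_right _ _),
      (min_le_right _ _).trans (min_le_left _ _), (min_le_right _ _).trans (min_le_right _ _)⟩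
  obtain ⟨S, E, Bk, q, A, K, hEm, hEδ, hBm, hBs, hBδ, hGF, hA0, hGs, hdec, hdisj, hconn, hcl⟩ :=
    package1 T hC β hβ hβ1 α hα hα1 δ hδ
  have hBkS : ∀ g, g ∉ S → Bk g = ∅ := by
    intro g hg
    ext x
    simp only [mem_empty_iff_false, iff_false]
    intro hx
    have := (hdec g x).mpr (Or.inl hx)
    rw [(hGF q).supp g hg] at this
    exact this
  -- the structural labels
  let E2 : Fin r → Set X := fun i => {x | T (FreeGroup.of i)⁻¹ x ∈ E i}
  have hE2m : ∀ i, MeasurableSet (E2 i) := fun i => (hC.actT.mp (FreeGroup.of i)⁻¹).measurable (hEm i)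
  obtain ⟨l1, b1⟩ := ent_sets (μ := μ) (Finset.univ : Finset (Fin r)) E hEm
  obtain ⟨l2, b2⟩ := ent_sets (μ := μ) (Finset.univ : Finset (Fin r)) E2 hE2m
  obtain ⟨l3, b3⟩ := ent_sets (μ := μ) S Bk hBm
  have hsmall : ∀ p : ℝ, 0 ≤ p → p ≤ 1 → p ≤ δ → Real.binEntropy p ≤ η := by
    intro p hp hp1 hpδ
    have := hdc' {1} (fun _ => p) (fun _ => hp) (fun _ => hp1) (by
      simp only [Finset.sum_singleton, FreeGroup.norm_one, Nat.cast_zero, zero_add, mul_one]
      exact hpδ.trans h3)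
    simpa using this
  have hcompl : ∀ s : Set X, MeasurableSet s → μ.real s = 1 - μ.real sᶜ := by
    intro s hs
    rw [measureReal_compl hs]; simp
  have c1 : ent μ (fun x => {k : Fin r | k ∈ (Finset.univ : Finset (Fin r)) ∧ x ∈ E k}) ≤ e0 := by
    refine b1.trans ?_
    calc ∑ k ∈ (Finset.univ : Finset (Fin r)), Real.binEntropy (μ.real (E k))
        ≤ ∑ _k ∈ (Finset.univ : Finset (Fin r)), η := by
          refine Finset.sum_le_sum fun k _ => ?_
          rw [hcompl _ (hEm k), Real.binEntropy_one_sub]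
          exact hsmall _ measureReal_nonneg measureReal_le_one (hEδ k)
      _ = r * η := by simp
      _ ≤ e0 := hrη
  have c2 : ent μ (fun x => {k : Fin r | k ∈ (Finset.univ : Finset (Fin r)) ∧ x ∈ E2 k}) ≤ e0 := by
    refine b2.trans ?_
    calc ∑ k ∈ (Finset.univ : Finset (Fin r)), Real.binEntropy (μ.real (E2 k))
        ≤ ∑ _k ∈ (Finset.univ : Finset (Fin r)), η := by
          refine Finset.sum_le_sum fun k _ => ?_
          have : μ.real (E2 k) = μ.real (E k) :=
            (hC.actT.mp (FreeGroup.of k)⁻¹).measureReal_preimage (hEm k).nullMeasurableSet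
          rw [this, hcompl _ (hEm k), Real.binEntropy_one_sub]
          exact hsmall _ measureReal_nonneg measureReal_le_one (hEδ k)
      _ = r * η := by simp
      _ ≤ e0 := hrη
  have c3 : ent μ (fun x => {k : FreeGroup (Fin r) | k ∈ S ∧ x ∈ Bk k}) ≤ e0 := by
    refine b3.trans (hdb' S (fun g => μ.real (Bk g)) (fun _ => measureReal_nonneg)
      (fun _ => measureReal_le_one) (hBδ.trans h2))
  -- the label w
  have hp3 := lab_pair l2 l3
  have hp2 := lab_pair l1 hp3.1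
  have hw := lab_pair hχ hp2.1
  generalize hwdef : (fun x => (χ x, (({k : Fin r | k ∈ (Finset.univ : Finset (Fin r)) ∧ x ∈ E k} :
    Set (Fin r)), (({k : Fin r | k ∈ (Finset.univ : Finset (Fin r)) ∧ x ∈ E2 k} : Set (Fin r)),
    ({k : FreeGroup (Fin r) | k ∈ S ∧ x ∈ Bk k} : Set (FreeGroup (Fin r))))))) = w at hw
  have hwent : ent μ w - ent μ χ ≤ 3 * e0 := by
    have := hw.2
    have := hp2.2
    have := hp3.2
    linarith
  have hwdet : ∀ x y, w x = w y → χ x = χ y ∧ (∀ i, x ∈ E i ↔ y ∈ E i) ∧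
      (∀ i, x ∈ E2 i ↔ y ∈ E2 i) ∧ (∀ g, x ∈ Bk g ↔ y ∈ Bk g) := by
    intro x y h
    rw [← hwdef] at h
    simp only [Prod.mk.injEq] at h
    obtain ⟨a1, a2, a3, a4⟩ := h
    refine ⟨a1, fun i => ?_, fun i => ?_, fun g => ?_⟩
    · have := Set.ext_iff.mp a2 i
      simpa using this
    · have := Set.ext_iff.mp a3 i
      simpa using this
    · by_cases hg : g ∈ S
      · have := Set.ext_iff.mp a4 g
        simpa [hg] using this
      · rw [hBkS g hg]; simp
  have hw1 : ∀ (g : FreeGroup (Fin r)) (x y : X), w x = w y → (x ∈ Bk g ↔ y ∈ Bk g) :=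
    fun g x y h => (hwdet x y h).2.2.2 g
  have hw2 : ∀ (i : Fin r) (g : FreeGroup (Fin r)) (x y : X), w x = w y →
      ((x ∈ E i ∧ T (FreeGroup.of i) x = g • x) ↔ (y ∈ E i ∧ T (FreeGroup.of i) y = g • y)) := by
    intro i g x y h
    obtain ⟨a1, a2, -, -⟩ := hwdet x y h
    have a5 := (hχfin x y a1).2.1 i
    rw [a2 i, hβ i x, hβ i y, a5]
    refine and_congr_right fun _ => ?_
    constructor
    · intro h; rw [huniq _ _ _ h]
    · intro h; rw [huniq _ _ _ h]
  have hw3 : ∀ (i : Fin r) (g : FreeGroup (Fin r)) (x y : X), w x = w y →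
      ((T (FreeGroup.of i)⁻¹ x ∈ E i ∧ T (FreeGroup.of i)⁻¹ x = g • x) ↔
      (T (FreeGroup.of i)⁻¹ y ∈ E i ∧ T (FreeGroup.of i)⁻¹ y = g • y)) := by
    intro i g x y h
    obtain ⟨a1, -, a3, -⟩ := hwdet x y h
    have a5 := (hχfin x y a1).2.2 i
    have a6 : T (FreeGroup.of i)⁻¹ x ∈ E i ↔ T (FreeGroup.of i)⁻¹ y ∈ E i := a3 i
    rw [a6, hβm' i x, hβm' i y, a5]
    refine and_congr_right fun _ => ?_
    constructor
    · intro h; rw [huniq _ _ _ h]
    · intro h; rw [huniq _ _ _ h]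
  have hwχ : Finer w χ := fun x y h => (hwdet x y h).1
  have hwD : Adapted (A q) w := by
    intro g x y h
    rw [hdec, hdec, hw1 g x y h]
    refine or_congr_right (exists_congr fun i => ?_)
    rw [hw2 i g x y h, hw3 i g x y h]
  have hHB := hybrid_bound T hC E hEm (A q) Bk S (hGF q) hBm hBs hdec hdisj hχ hw.1 hwχ hw1 hw2 hw3
  have hloss : ∑ i, (μ.real (E i)ᶜ + ∫ x in (E i)ᶜ, info μ χ x ∂μ) ≤ 2 * e0 := by
    calc ∑ i, (μ.real (E i)ᶜ + ∫ x in (E i)ᶜ, info μ χ x ∂μ) ≤ ∑ _i : Fin r, (η + η) := by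
          refine Finset.sum_le_sum fun i _ => add_le_add ((hEδ i).trans h4)
            (hda' _ ((hEδ i).trans h1))
      _ = 2 * (r * η) := by simp; ring
      _ ≤ 2 * e0 := by linarith
  -- the structural label c
  obtain ⟨lc1, -⟩ := ent_sets (μ := μ) (Finset.range (q + 1) ×ˢ S) (fun p => A p.1 p.2)
    (fun p => (hGF p.1).meas p.2)
  have lc2 : IsLab μ (fun x (j : Fin q) => K j.val x) := by
    refine lab_pi (fun (j : Fin q) x => K j.val x) (fun j => ?_)
    refine lab_finite (fun c => (hcl j.val j.isLt).meas c) ?_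
    refine (Finset.finite_toSet (S.powerset)).subset ?_
    rintro _ ⟨x, rfl⟩
    simp only [Finset.coe_powerset, mem_preimage, mem_powerset_iff, Finset.coe_subset]
    exact (hcl j.val j.isLt).bdd x
  have hc := (lab_pair lc1 lc2).1
  have hwπ : ∃ π' : _ → P', ∀ x, φ' x = π' (w x) := ⟨fun t => π t.1, fun x => by
    rw [hπ, ← hwdef]⟩
  obtain ⟨π', hπ'⟩ := hwπ
  have hgen : ∀ B : Set X, MeasurableSet B → ∃ B' : Set X,
      MeasurableSet[⨆ g : FreeGroup (Fin r), MeasurableSpace.comap (fun x : X => w (g • x)) ⊤] B' ∧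
        B =ᵐ[μ] B' := by
    intro B hB
    obtain ⟨B', hB', hBB⟩ := hgφ' B hB
    refine ⟨B', ?_, hBB⟩
    have hle : (⨆ g : FreeGroup (Fin r), MeasurableSpace.comap (fun x : X => φ' (g • x)) ⊤) ≤
        ⨆ g : FreeGroup (Fin r), MeasurableSpace.comap (fun x : X => w (g • x)) ⊤ := by
      refine iSup_mono fun g => ?_
      rintro s ⟨t, -, rfl⟩
      refine ⟨π' ⁻¹' t, trivial, ?_⟩
      ext x
      simp only [mem_preimage, hπ']
    exact hle _ hB'
  obtain ⟨l, hl, hlw, hlc, hlF⟩ := F_structure hC.mpU hC.freeU fg_inv_ne (A q) S (hGF q) hconn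
    hw.1 hwD hgen hc e0 he0
  obtain ⟨l', hl', hl'l, hl'F⟩ := F_chain hC.mpU hC.freeU fg_inv_ne S A K q (fun j _ => hGF j)
    hcl hl (by
      intro j hj g x y h
      by_cases hg : g ∈ S
      · have h5 := hlc x y h
        simp only [Prod.mk.injEq] at h5
        have h6 := Set.ext_iff.mp h5.1 (j, g)
        simp only [mem_setOf_eq, Finset.mem_product, Finset.mem_range, hg, and_true] at h6
        have h7 : j < q + 1 := Nat.lt_succ_of_le hj
        simpa [h7] using h6
      · rw [(hGF j).supp g hg]; simp) (by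
      intro j hj x y h
      have h5 := hlc x y h
      simp only [Prod.mk.injEq] at h5
      exact congrFun h5.2 ⟨j, hj⟩)
  have hl'φ : Finer l' φ' := by
    intro x y h
    exact (hχfin x y (hwχ x y (hlw x y (hl'l x y h)))).1
  obtain ⟨m, hm⟩ := BF_le_of_finer (fun (g : FreeGroup (Fin r)) (x : X) => g • x) hU hφ' hgφ' hl'
    hl'φ e0 he0
  refine ⟨m, ?_⟩
  have hfin := BF_eq_F hC.mpU S hGs hl'
  rw [hA0] at hl'F
  linarith

end Pool.Agent.KS6_32.FI1
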