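import Pool.Agent.KS6_32.FI1.Fam

/-!
The number of long block edges is at most the number of long non-chosen edges of the second
action (project MP_572a3e_an, `L^1`).
-/

set_option autoImplicit false

namespace Pool.Agent.KS6_32.FI1

open Finset MeasureTheory Pool.Agent.TH722.FI Pool.Agent.TH929.FI

variable {r : ℕ} {X : Type*} [MeasurableSpace X] {μ : Measure X} [IsProbabilityMeasure μ]
  [MulAction (FreeGroup (Fin r)) X]
  {T : FreeGroup (Fin r) → X → X} {E : Fin r → Set X} {key : X → ℝ}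
  {β : Fin r → X → FreeGroup (Fin r)}

theorem cross_x (hC : Common μ T) (hki : Function.Injective key) (x : X)
    (a g b b' : FreeGroup (Fin r)) (hk : (HG T E key x).Adj a (g * a))
    (hb : Blk (TG T x) (CC T E x) b b') (hne : hs T E key x a g b' ≠ hs T E key x a g b) :
    g.norm ≤ (b' * b⁻¹).norm ∧ (a * b⁻¹).norm ≤ 3 * (b' * b⁻¹).norm := by
  obtain ⟨c1, c2, -, N, hN⟩ := Jobs.cg_tree r
  obtain ⟨t1, -, t3, -⟩ := Jobs.tg_tree T hC x
  have h := cross (CG r) (TG T x) (CC T E x) c1 t1 (t3 E) N hN (fun a => key (a • x))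
    (TH722.FI.key_inj hC.freeU key hki x) hb hk.ne (fun hr => hne (sd_eq_of_reach _ _ _ hr).symm)
  rw [c2, c2, c2, mul_inv_cancel_right] at h
  exact h

open Classical in
/-- matrix of the crossings of block edges by `T`-edges -/
noncomputable def dd (T : FreeGroup (Fin r) → X → X) (E : Fin r → Set X) (key : X → ℝ)
    (β : Fin r → X → FreeGroup (Fin r)) (n L : ℕ) (S : Finset (FreeGroup (Fin r))) (x : X)
    (k : FreeGroup (Fin r) × S) (f : FreeGroup (Fin r) × Fin r) : ℝ :=
  if k.1 • x ∈ PB T E key β n L k.2.1 ∧ f.1 • x ∈ QB E β n L f.2 then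
    hs T E key x k.1 k.2.1 (β f.2 (f.1 • x) * f.1) - hs T E key x k.1 k.2.1 f.1 else 0

open Classical in
/-- matrix of the crossings of `T`-edges by block edges -/
noncomputable def ee (T : FreeGroup (Fin r) → X → X) (E : Fin r → Set X) (key : X → ℝ)
    (β : Fin r → X → FreeGroup (Fin r)) (n L : ℕ) (S : Finset (FreeGroup (Fin r))) (x : X)
    (k : FreeGroup (Fin r) × S) (f : FreeGroup (Fin r) × Fin r) : ℝ :=
  if k.1 • x ∈ PB T E key β n L k.2.1 ∧ f.1 • x ∈ QB E β n L f.2 then
    ts T β x f.1 f.2 (k.2.1 * k.1) - ts T β x f.1 f.2 k.1 else 0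

theorem pb_adj (hC : Common μ T) {n L : ℕ} {x : X} {a g : FreeGroup (Fin r)}
    (h : a • x ∈ PB T E key β n L g) :
    (HG T E key x).Adj a (g * a) ∧ ¬ (CC T E x).Adj a (g * a) :=
  (bkp_iff hC x a g).mp h.1

theorem dd_rng (hC : Common μ T) (hki : Function.Injective key)
    (hβ : ∀ i x, T (FreeGroup.of i) x = β i x • x) (n L : ℕ) (S : Finset (FreeGroup (Fin r)))
    (x : X) (k : FreeGroup (Fin r) × S) (f : FreeGroup (Fin r) × Fin r)
    (h : dd T E key β n L S x k f ≠ 0) : (k.1 * f.1⁻¹).norm ≤ 3 * L := by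
  unfold dd at h
  split_ifs at h with hkf
  · obtain ⟨hk, hf⟩ := hkf
    have h1 := (cross_x hC hki x k.1 k.2.1 f.1 (β f.2 (f.1 • x) * f.1) (pb_adj hC hk).1
      (blk_unchosen hC hβ x f hf.1) (sub_ne_zero.mp h)).2
    rw [mul_inv_cancel_right] at h1
    have := hf.2.2
    omega
  · exact absurd rfl h

theorem pb_path {n L : ℕ} {x : X} {a g : FreeGroup (Fin r)} (h : a • x ∈ PB T E key β n L g)
    (f : FreeGroup (Fin r) × Fin r)
    (hne : ts T β x f.1 f.2 (g * a) ≠ ts T β x f.1 f.2 a) :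
    (β f.2 (f.1 • x)).norm ≤ L ∧ (f.1 * a⁻¹).norm ≤ L := by
  have h1 := h.2.2.2 (f.1 * a⁻¹) f.2
  rw [ts_smul, ts_smul, inv_mul_cancel_right, one_mul, smul_smul, inv_mul_cancel_right] at h1
  exact h1 (Ne.symm hne)

theorem ee_rng (n L : ℕ) (S : Finset (FreeGroup (Fin r)))
    (x : X) (k : FreeGroup (Fin r) × S) (f : FreeGroup (Fin r) × Fin r)
    (h : ee T E key β n L S x k f ≠ 0) : (f.1 * k.1⁻¹).norm ≤ L := by
  unfold ee at h
  split_ifs at h with hkf
  · exact (pb_path hkf.1 f (sub_ne_zero.mp h)).2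
  · exact absurd rfl h

theorem dd_equi (hC : Common μ T) (n L : ℕ) (S : Finset (FreeGroup (Fin r)))
    (h : FreeGroup (Fin r)) (x : X) (a : FreeGroup (Fin r)) (i : S) (b : FreeGroup (Fin r))
    (j : Fin r) : dd T E key β n L S (h • x) (a, i) (b, j) =
      dd T E key β n L S x (a * h, i) (b * h, j) := by
  unfold dd
  have h1 : a • h • x = (a * h) • x := smul_smul _ _ _
  have h2 : b • h • x = (b * h) • x := smul_smul _ _ _
  simp only [hs_smul T hC, mul_assoc]
  rw [h1, h2]

theorem ee_equi (n L : ℕ) (S : Finset (FreeGroup (Fin r)))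
    (h : FreeGroup (Fin r)) (x : X) (a : FreeGroup (Fin r)) (i : S) (b : FreeGroup (Fin r))
    (j : Fin r) : ee T E key β n L S (h • x) (a, i) (b, j) =
      ee T E key β n L S x (a * h, i) (b * h, j) := by
  unfold ee
  have h1 : a • h • x = (a * h) • x := smul_smul _ _ _
  have h2 : b • h • x = (b * h) • x := smul_smul _ _ _
  simp only [ts_smul, mul_assoc]
  rw [h1, h2]

theorem dd_abs (n L : ℕ) (S : Finset (FreeGroup (Fin r)))
    (x : X) (k : FreeGroup (Fin r) × S) (f : FreeGroup (Fin r) × Fin r) :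
    |dd T E key β n L S x k f| ≤ 1 := by
  unfold dd
  split_ifs
  · exact sd_abs _ _ _ _ _
  · simp

theorem ee_abs (n L : ℕ) (S : Finset (FreeGroup (Fin r)))
    (x : X) (k : FreeGroup (Fin r) × S) (f : FreeGroup (Fin r) × Fin r) :
    |ee T E key β n L S x k f| ≤ 1 := by
  unfold ee
  split_ifs
  · exact sd_abs _ _ _ _ _
  · simp

theorem cond_meas [StandardBorelSpace X] (hC : Common μ T) (hE : ∀ i, MeasurableSet (E i))
    (hkey : Measurable key) (hβ : ∀ i x, T (FreeGroup.of i) x = β i x • x)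
    (n L : ℕ) (S : Finset (FreeGroup (Fin r)))
    (k : FreeGroup (Fin r) × S) (f : FreeGroup (Fin r) × Fin r) :
    MeasurableSet {x : X | k.1 • x ∈ PB T E key β n L k.2.1 ∧ f.1 • x ∈ QB E β n L f.2} :=
  ((hC.mpU k.1).measurable (pb_meas hC hE hkey hβ n L k.2.1)).inter
    ((hC.mpU f.1).measurable (qb_meas hC hE hβ n L f.2))

theorem dd_meas [StandardBorelSpace X] (hC : Common μ T) (hE : ∀ i, MeasurableSet (E i))
    (hkey : Measurable key) (hβ : ∀ i x, T (FreeGroup.of i) x = β i x • x)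
    (n L : ℕ) (S : Finset (FreeGroup (Fin r)))
    (k : FreeGroup (Fin r) × S) (f : FreeGroup (Fin r) × Fin r) :
    Measurable fun x => dd T E key β n L S x k f := by
  unfold dd
  refine Measurable.ite (cond_meas hC hE hkey hβ n L S k f) ?_ measurable_const
  refine Measurable.sub ?_ (hs_meas hC hE hkey _ _ _)
  exact comp_meas (fun x => β f.2 (f.1 • x)) (fun g => beta_set hC hβ f.2 f.1 g)
    (fun g x => hs T E key x k.1 k.2.1 (g * f.1)) (fun g => hs_meas hC hE hkey _ _ _)

theorem ee_meas [StandardBorelSpace X] (hC : Common μ T) (hE : ∀ i, MeasurableSet (E i))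
    (hkey : Measurable key) (hβ : ∀ i x, T (FreeGroup.of i) x = β i x • x)
    (n L : ℕ) (S : Finset (FreeGroup (Fin r)))
    (k : FreeGroup (Fin r) × S) (f : FreeGroup (Fin r) × Fin r) :
    Measurable fun x => ee T E key β n L S x k f := by
  unfold ee
  refine Measurable.ite (cond_meas hC hE hkey hβ n L S k f) ?_ measurable_const
  exact (ts_meas hC hβ _ _ _).sub (ts_meas hC hβ _ _ _)

/-- the product of the two matrices is the identity -/
theorem dd_ee (hC : Common μ T) (hki : Function.Injective key)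
    (hβ : ∀ i x, T (FreeGroup.of i) x = β i x • x) (n L : ℕ) (S : Finset (FreeGroup (Fin r)))
    (x : X) (k k' : FreeGroup (Fin r) × S) (hk : k.1 • x ∈ PB T E key β n L k.2.1)
    (hk' : k'.1 • x ∈ PB T E key β n L k'.2.1) :
    ∃ Φ0 : Finset (FreeGroup (Fin r) × Fin r), ∀ Φ, Φ0 ⊆ Φ →
      ∑ f ∈ Φ, ee T E key β n L S x k' f * dd T E key β n L S x k f =
        (Finsupp.single k' (1 : ℝ)) k := by
  classical
  obtain ⟨c1, c2, -, N, hN⟩ := Jobs.cg_tree r
  obtain ⟨t1, -, t3, -⟩ := Jobs.tg_tree T hC x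
  obtain ⟨e1, e2, e3⟩ := tg_enum hC hβ x
  have hH : (HG T E key x).IsTree := (Jobs.hyb_tree (CG r) (TG T x) (CC T E x) c1 t1 (t3 E) N hN
    (fun a => key (a • x)) (TH722.FI.key_inj hC.freeU key hki x)).1
  obtain ⟨p⟩ := t1.connected.preconnected k'.1 (k'.2.1 * k'.1)
  obtain ⟨Φ0, -, h2⟩ := grad t1 (fun f : FreeGroup (Fin r) × Fin r => f.1)
    (fun f => β f.2 (f.1 • x) * f.1) e1 e2 e3 p
  obtain ⟨hka, hkn⟩ := pb_adj hC hk
  obtain ⟨hka', hkn'⟩ := pb_adj hC hk'
  refine ⟨Φ0, fun Φ hΦ => ?_⟩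
  have hterm : ∀ f ∈ Φ, ee T E key β n L S x k' f * dd T E key β n L S x k f =
      (hs T E key x k.1 k.2.1 (β f.2 (f.1 • x) * f.1) - hs T E key x k.1 k.2.1 f.1) *
      (sd (TG T x) f.1 (β f.2 (f.1 • x) * f.1) (k'.2.1 * k'.1) -
        sd (TG T x) f.1 (β f.2 (f.1 • x) * f.1) k'.1) := by
    intro f _
    by_cases hf : f.1 • x ∈ QB E β n L f.2
    · unfold ee dd
      rw [if_pos ⟨hk', hf⟩, if_pos ⟨hk, hf⟩, mul_comm]
      rfl
    · have hl : ee T E key β n L S x k' f = 0 := by
        unfold ee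
        rw [if_neg fun h => hf h.2]
      rw [hl, zero_mul]
      symm
      by_cases hE1 : f.1 • x ∈ E f.2
      · -- chosen edges are edges of the hybrid tree
        have h3 := cc_chosen hC hβ x f hE1
        have h4 : hs T E key x k.1 k.2.1 f.1 =
            hs T E key x k.1 k.2.1 (β f.2 (f.1 • x) * f.1) := by
          refine sd_eq_of_adj (HG T E key x) _ _ (Or.inl h3) ?_
          intro e
          rcases Sym2.eq_iff.mp e with ⟨a1, a2⟩ | ⟨a1, a2⟩
          · rw [a2, a1] at h3
            exact hkn h3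
          · rw [a2, a1] at h3
            exact hkn h3.symm
        rw [h4, sub_self, zero_mul]
      · by_cases hn : n ≤ (β f.2 (f.1 • x)).norm
        · have hL : ¬ (β f.2 (f.1 • x)).norm ≤ L := fun h => hf ⟨hE1, hn, h⟩
          have h4 : sd (TG T x) f.1 (β f.2 (f.1 • x) * f.1) (k'.2.1 * k'.1) =
              sd (TG T x) f.1 (β f.2 (f.1 • x) * f.1) k'.1 := by
            by_contra hne
            exact hL (pb_path hk' f hne).1
          rw [h4, sub_self, mul_zero]
        · have h4 : hs T E key x k.1 k.2.1 (β f.2 (f.1 • x) * f.1) =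
              hs T E key x k.1 k.2.1 f.1 := by
            by_contra hne
            have h5 := (cross_x hC hki x k.1 k.2.1 f.1 _ hka (blk_unchosen hC hβ x f hE1) hne).1
            rw [mul_inv_cancel_right] at h5
            have := hk.2.2.1
            omega
          rw [h4, sub_self, zero_mul]
  rw [sum_congr rfl hterm, h2 (hs T E key x k.1 k.2.1) Φ hΦ]
  by_cases hkk : k' = k
  · subst hkk
    rw [Finsupp.single_eq_same]
    unfold hs
    rw [sd_right, sd_left hH hka]
    norm_num
  · rw [Finsupp.single_eq_of_ne (Ne.symm hkk), sub_eq_zero]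
    symm
    refine sd_eq_of_adj (HG T E key x) _ _ hka' ?_
    intro e
    rcases Sym2.eq_iff.mp e with ⟨a1, a2⟩ | ⟨a1, a2⟩
    · rw [a1] at a2
      exact hkk (Prod.ext a1 (Subtype.ext (mul_right_cancel a2)))
    · have k1 := hk.2.1
      have k2 := hk'.2.1
      rw [smul_smul] at k1 k2
      rw [a2, a1] at k2
      exact lt_asymm k1 k2

theorem count_le [StandardBorelSpace X] (hC : Common μ T) (hE : ∀ i, MeasurableSet (E i))
    (hkey : Measurable key) (hki : Function.Injective key)
    (hβ : ∀ i x, T (FreeGroup.of i) x = β i x • x) (n L : ℕ) (S : Finset (FreeGroup (Fin r))) :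
    ∑ g : S, μ.real (PB T E key β n L g.1) ≤ ∑ j, μ.real (QB E β n L j) := by
  classical
  let F : Finset (FreeGroup (Fin r)) := (norm_finite r (3 * L)).toFinset
  have hF : ∀ g : FreeGroup (Fin r), g.norm ≤ 3 * L → g ∈ F := fun g hg => by simpa [F] using hg
  have hF1 : ∀ x (a : FreeGroup (Fin r)) (i : Fin r) (b : FreeGroup (Fin r)) (j : S),
      (fun (f : FreeGroup (Fin r) × Fin r) k => dd T E key β n L S x k f) (a, i) (b, j) ≠ 0 →
      b * a⁻¹ ∈ F := fun x a i b j h => hF _ (dd_rng hC hki hβ n L S x (b, j) (a, i) h)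
  have hF2 : ∀ x (a : FreeGroup (Fin r)) (i : S) (b : FreeGroup (Fin r)) (j : Fin r),
      dd T E key β n L S x (a, i) (b, j) ≠ 0 → b * a⁻¹ ∈ F := by
    intro x a i b j h
    refine hF _ ?_
    have := dd_rng hC hki hβ n L S x (a, i) (b, j) h
    rw [← FreeGroup.norm_inv_eq, mul_inv_rev, inv_inv] at this
    exact this
  have hF3 : ∀ x (a : FreeGroup (Fin r)) (i : S) (b : FreeGroup (Fin r)) (j : Fin r),
      ee T E key β n L S x (a, i) (b, j) ≠ 0 → b * a⁻¹ ∈ F := by
    intro x a i b j h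
    refine hF _ ?_
    have := ee_rng n L S x (a, i) (b, j) h
    simp only at this
    omega
  let D : X → ((FreeGroup (Fin r) × Fin r) →₀ ℝ) →ₗ[ℝ] ((FreeGroup (Fin r) × S) →₀ ℝ) :=
    fun x => lin (fun f k => dd T E key β n L S x k f) F (hF1 x)
  let Dt : X → ((FreeGroup (Fin r) × S) →₀ ℝ) →ₗ[ℝ] ((FreeGroup (Fin r) × Fin r) →₀ ℝ) :=
    fun x => lin (dd T E key β n L S x) F (hF2 x)
  let D' : X → ((FreeGroup (Fin r) × S) →₀ ℝ) →ₗ[ℝ] ((FreeGroup (Fin r) × Fin r) →₀ ℝ) :=
    fun x => lin (ee T E key β n L S x) F (hF3 x)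
  have gD : Good D := good_lin (fun x f k => dd T E key β n L S x k f) F hF1
    (fun h x a i b j => dd_equi hC n L S h x b j a i) (fun x f k => dd_abs n L S x k f)
    (fun f k => dd_meas hC hE hkey hβ n L S k f)
  have gDt : Good Dt := good_lin (dd T E key β n L S) F hF2
    (fun h x a i b j => dd_equi hC n L S h x a i b j) (fun x k f => dd_abs n L S x k f)
    (fun k f => dd_meas hC hE hkey hβ n L S k f)
  have gD' : Good D' := good_lin (ee T E key β n L S) F hF3
    (fun h x a i b j => ee_equi n L S h x a i b j) (fun x k f => ee_abs n L S x k f)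
    (fun k f => ee_meas hC hE hkey hβ n L S k f)
  have hP : ∀ x v a (i : S), a • x ∉ PB T E key β n L i.1 → D x v (a, i) = 0 := by
    intro x v a i h
    rw [apply_eq (D x) v v.support subset_rfl]
    refine sum_eq_zero fun f _ => ?_
    have : D x (Finsupp.single f 1) (a, i) = 0 := by
      change lin _ F _ (Finsupp.single f 1) (a, i) = 0
      rw [lin_single]
      unfold dd
      rw [if_neg fun h' => h h'.1]
    rw [this, mul_zero]
  refine rank_le (μ := μ) hC.mpU (fun g : S => PB T E key β n L g.1)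
    (fun g => pb_meas hC hE hkey hβ n L g.1) (fun j => QB E β n L j)
    (fun j => qb_meas hC hE hβ n L j) gD gDt gD' ?_ hP ?_ ?_
  · intro x p q
    change lin _ F _ (Finsupp.single q 1) p = lin _ F _ (Finsupp.single p 1) q
    rw [lin_single, lin_single]
  · intro x b j h
    ext k
    change lin _ F _ (Finsupp.single (b, j) 1) k = _
    rw [lin_single]
    unfold dd
    rw [if_neg fun h' => h h'.2]
    rfl
  · intro x v hv
    have hcore : ∀ k' : FreeGroup (Fin r) × S, k'.1 • x ∈ PB T E key β n L k'.2.1 →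
        D x (D' x (Finsupp.single k' 1)) = Finsupp.single k' 1 := by
      intro k' hk'
      ext k
      by_cases hk : k.1 • x ∈ PB T E key β n L k.2.1
      · obtain ⟨Φ0, h0⟩ := dd_ee hC hki hβ n L S x k k' hk hk'
        rw [apply_eq (D x) (D' x (Finsupp.single k' 1)) (Φ0 ∪ (D' x (Finsupp.single k' 1)).support)
          subset_union_right, ← h0 _ subset_union_left]
        refine sum_congr rfl fun f _ => ?_
        change lin _ F _ (Finsupp.single k' 1) f * lin _ F _ (Finsupp.single f 1) k = _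
        rw [lin_single, lin_single]
      · rw [hP x _ k.1 k.2 hk, Finsupp.single_eq_of_ne]
        rintro rfl
        exact hk hk'
    have hvs : v = ∑ k ∈ v.support, v k • Finsupp.single k (1 : ℝ) := by
      conv_lhs => rw [← Finsupp.sum_single v]
      unfold Finsupp.sum
      exact sum_congr rfl fun k _ => single_eq k (v k)
    conv_lhs => rw [hvs]
    conv_rhs => rw [hvs]
    rw [map_sum, map_sum]
    refine sum_congr rfl fun k hk => ?_
    rw [map_smul, map_smul, hcore k]
    by_contra hn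
    exact Finsupp.mem_support_iff.mp hk (hv k.1 k.2 hn)

end Pool.Agent.KS6_32.FI1
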