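import Pool.Agent.KS6_32.FI1.Lin

/-!
Equivariant families of matrices over the orbits of a pmp action, their trace, and the rank
inequality (project MP_572a3e_an, `L^1`).
-/

set_option autoImplicit false

namespace Pool.Agent.KS6_32.FI1

open Finset MeasureTheory

section Good

variable {G X I J K : Type*} [Group G] [MeasurableSpace X] [MulAction G X]
  [Fintype I] [Fintype J] [Fintype K]

/-- equivariant measurable bounded families of matrices of finite range -/
structure Good (L : X → ((G × I) →₀ ℝ) →ₗ[ℝ] ((G × J) →₀ ℝ)) : Prop where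
  equi : ∀ (h : G) (x : X) a i b j, L (h • x) (Finsupp.single (a, i) 1) (b, j) =
    L x (Finsupp.single (a * h, i) 1) (b * h, j)
  rng : ∃ F : Finset G, ∀ x a i b j, L x (Finsupp.single (a, i) 1) (b, j) ≠ 0 → b * a⁻¹ ∈ F
  bdd : ∃ c : ℝ, ∀ x a i b j, |L x (Finsupp.single (a, i) 1) (b, j)| ≤ c
  meas : ∀ a i b j, Measurable fun x => L x (Finsupp.single (a, i) 1) (b, j)

theorem apply_eq {α β : Type*} (L : (α →₀ ℝ) →ₗ[ℝ] (β →₀ ℝ)) (v : α →₀ ℝ) (R : Finset α)
    (h : v.support ⊆ R) (q : β) : L v q = ∑ r ∈ R, v r * L (Finsupp.single r 1) q := by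
  have h1 : v = ∑ r ∈ R, v r • Finsupp.single r (1 : ℝ) := by
    conv_lhs => rw [← Finsupp.sum_single v]
    rw [Finsupp.sum_of_support_subset _ h _ (by simp)]
    exact sum_congr rfl fun r _ => single_eq r (v r)
  conv_lhs => rw [h1]
  rw [map_sum, Finsupp.finsetSum_apply]
  exact sum_congr rfl fun r _ => by rw [map_smul, Finsupp.smul_apply, smul_eq_mul]

theorem comp_entry {L : ((G × I) →₀ ℝ) →ₗ[ℝ] ((G × J) →₀ ℝ)} {β : Type*}
    {M : ((G × J) →₀ ℝ) →ₗ[ℝ] (β →₀ ℝ)} {F : Finset G}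
    (hF : ∀ a i b j, L (Finsupp.single (a, i) 1) (b, j) ≠ 0 → b * a⁻¹ ∈ F) (a : G) (i : I) (q : β) :
    M (L (Finsupp.single (a, i) 1)) q =
      ∑ g ∈ F, ∑ j, L (Finsupp.single (a, i) 1) (g * a, j) * M (Finsupp.single (g * a, j) 1) q := by
  classical
  rw [apply_eq M (L (Finsupp.single (a, i) 1)) ((F.image (· * a)) ×ˢ univ) (by
    rintro ⟨b, j⟩ hb
    rw [Finsupp.mem_support_iff] at hb
    rw [mem_product]
    refine ⟨?_, mem_univ _⟩
    rw [mem_image]
    exact ⟨b * a⁻¹, hF _ _ _ _ hb, inv_mul_cancel_right _ _⟩) q]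
  rw [sum_product, sum_image (fun g _ g' _ h => mul_right_cancel h)]

theorem Good.comp {L : X → ((G × I) →₀ ℝ) →ₗ[ℝ] ((G × J) →₀ ℝ)}
    {M : X → ((G × J) →₀ ℝ) →ₗ[ℝ] ((G × K) →₀ ℝ)} (hL : Good L) (hM : Good M) :
    Good (fun x => M x ∘ₗ L x) := by
  classical
  obtain ⟨F, hF⟩ := hL.rng
  obtain ⟨F', hF'⟩ := hM.rng
  obtain ⟨c, hc⟩ := hL.bdd
  obtain ⟨c', hc'⟩ := hM.bdd
  have key : ∀ x a i q, (M x ∘ₗ L x) (Finsupp.single (a, i) 1) q =
      ∑ g ∈ F, ∑ j, L x (Finsupp.single (a, i) 1) (g * a, j) *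
        M x (Finsupp.single (g * a, j) 1) q :=
    fun x a i q => comp_entry (hF x) a i q
  refine ⟨?_, ⟨(F' ×ˢ F).image (fun p => p.1 * p.2), ?_⟩, ⟨∑ _g ∈ F, ∑ _j : J, |c| * |c'|, ?_⟩, ?_⟩
  · intro h x a i b j
    rw [key, key]
    refine sum_congr rfl fun g _ => sum_congr rfl fun j' _ => ?_
    rw [hL.equi, hM.equi, mul_assoc g a h]
  · intro x a i b k hne
    rw [key] at hne
    obtain ⟨g, hg, hne⟩ := exists_ne_zero_of_sum_ne_zero hne
    obtain ⟨j, -, hne⟩ := exists_ne_zero_of_sum_ne_zero hne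
    rw [mem_image]
    refine ⟨(b * (g * a)⁻¹, g), ?_, ?_⟩
    · rw [mem_product]
      exact ⟨hF' _ _ _ _ _ (right_ne_zero_of_mul hne), hg⟩
    · group
  · intro x a i b k
    rw [key]
    refine (abs_sum_le_sum_abs _ _).trans (sum_le_sum fun g _ => ?_)
    refine (abs_sum_le_sum_abs _ _).trans (sum_le_sum fun j _ => ?_)
    rw [abs_mul]
    exact mul_le_mul ((hc _ _ _ _ _).trans (le_abs_self _)) ((hc' _ _ _ _ _).trans (le_abs_self _))
      (abs_nonneg _) (abs_nonneg _)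
  · intro a i b k
    simp only [key]
    exact Finset.measurable_fun_sum _ fun g _ => Finset.measurable_fun_sum _ fun j _ =>
      (hL.meas _ _ _ _).mul (hM.meas _ _ _ _)

theorem Good.add {L M : X → ((G × I) →₀ ℝ) →ₗ[ℝ] ((G × J) →₀ ℝ)} (hL : Good L) (hM : Good M) :
    Good (fun x => L x + M x) := by
  classical
  obtain ⟨F, hF⟩ := hL.rng
  obtain ⟨F', hF'⟩ := hM.rng
  obtain ⟨c, hc⟩ := hL.bdd
  obtain ⟨c', hc'⟩ := hM.bdd
  refine ⟨fun h x a i b j => ?_, ⟨F ∪ F', fun x a i b j h => ?_⟩, ⟨c + c', fun x a i b j => ?_⟩,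
    fun a i b j => ?_⟩
  · simp only [LinearMap.add_apply, Finsupp.add_apply, hL.equi, hM.equi]
  · simp only [LinearMap.add_apply, Finsupp.add_apply] at h
    by_cases h1 : L x (Finsupp.single (a, i) 1) (b, j) = 0
    · rw [h1, zero_add] at h
      exact mem_union_right _ (hF' _ _ _ _ _ h)
    · exact mem_union_left _ (hF _ _ _ _ _ h1)
  · simp only [LinearMap.add_apply, Finsupp.add_apply]
    exact (abs_add_le _ _).trans (add_le_add (hc _ _ _ _ _) (hc' _ _ _ _ _))
  · simp only [LinearMap.add_apply, Finsupp.add_apply]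
    exact (hL.meas _ _ _ _).add (hM.meas _ _ _ _)

theorem Good.smul {L : X → ((G × I) →₀ ℝ) →ₗ[ℝ] ((G × J) →₀ ℝ)} (hL : Good L) (t : ℝ) :
    Good (fun x => t • L x) := by
  obtain ⟨F, hF⟩ := hL.rng
  obtain ⟨c, hc⟩ := hL.bdd
  refine ⟨fun h x a i b j => ?_, ⟨F, fun x a i b j h => ?_⟩, ⟨|t| * c, fun x a i b j => ?_⟩,
    fun a i b j => ?_⟩
  · simp only [LinearMap.smul_apply, Finsupp.smul_apply, hL.equi]
  · simp only [LinearMap.smul_apply, Finsupp.smul_apply, smul_eq_mul] at h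
    exact hF _ _ _ _ _ (right_ne_zero_of_mul h)
  · simp only [LinearMap.smul_apply, Finsupp.smul_apply, smul_eq_mul, abs_mul]
    exact mul_le_mul_of_nonneg_left (hc _ _ _ _ _) (abs_nonneg _)
  · simp only [LinearMap.smul_apply, Finsupp.smul_apply, smul_eq_mul]
    exact (hL.meas _ _ _ _).const_mul _

theorem Good.one : Good (fun _ : X => (1 : Module.End ℝ ((G × I) →₀ ℝ))) := by
  classical
  refine ⟨fun h x a i b j => ?_, ⟨{1}, fun x a i b j h => ?_⟩, ⟨1, fun x a i b j => ?_⟩,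
    fun a i b j => ?_⟩
  · simp only [Module.End.one_apply, Finsupp.single_apply, Prod.mk.injEq, mul_left_inj]
  · simp only [Module.End.one_apply, Finsupp.single_apply, Prod.mk.injEq] at h
    by_cases h1 : a = b ∧ i = j
    · rw [h1.1, mul_inv_cancel]; simp
    · simp [h1] at h
  · simp only [Module.End.one_apply, Finsupp.single_apply]
    split_ifs <;> simp
  · simp only [Module.End.one_apply]
    exact measurable_const

theorem Good.zero : Good (fun _ : X => (0 : ((G × I) →₀ ℝ) →ₗ[ℝ] ((G × J) →₀ ℝ))) := by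
  refine ⟨fun h x a i b j => rfl, ⟨∅, fun x a i b j h => absurd rfl h⟩, ⟨0, fun x a i b j => ?_⟩,
    fun a i b j => measurable_const⟩
  simp

theorem Good.sum {L : ℕ → X → ((G × I) →₀ ℝ) →ₗ[ℝ] ((G × J) →₀ ℝ)} (hL : ∀ k, Good (L k))
    (N : ℕ) : Good (fun x => ∑ k ∈ range N, L k x) := by
  induction N with
  | zero => simpa using Good.zero
  | succ N ih =>
    simp only [sum_range_succ]
    exact ih.add (hL N)

variable {D : X → ((G × J) →₀ ℝ) →ₗ[ℝ] ((G × I) →₀ ℝ)}
  {Dt : X → ((G × I) →₀ ℝ) →ₗ[ℝ] ((G × J) →₀ ℝ)}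

theorem Good.zz (hD : Good D) (hDt : Good Dt) (C : ℝ) :
    Good (fun x => FI1.zz (D x) (Dt x) C) := by
  have h : ∀ x, FI1.zz (D x) (Dt x) C = (1 : Module.End ℝ ((G × I) →₀ ℝ)) +
      (-C⁻¹) • (D x ∘ₗ Dt x) := by
    intro x
    apply LinearMap.ext
    intro v
    change v - C⁻¹ • D x (Dt x v) = v + (-C⁻¹) • D x (Dt x v)
    rw [neg_smul, sub_eq_add_neg]
  simp only [h]
  exact Good.one.add ((hDt.comp hD).smul _)

theorem Good.zz_pow (hD : Good D) (hDt : Good Dt) (C : ℝ) (k : ℕ) :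
    Good (fun x => (FI1.zz (D x) (Dt x) C ^ k : Module.End ℝ ((G × I) →₀ ℝ))) := by
  induction k with
  | zero => simpa using Good.one
  | succ k ih =>
    simp only [pow_succ]
    exact (hD.zz hDt C).comp ih

theorem Good.KK (hD : Good D) (hDt : Good Dt) (C : ℝ) (N : ℕ) :
    Good (fun x => FI1.KK (D x) (Dt x) C N) :=
  ((Good.sum (fun k => hD.zz_pow hDt C k) N).comp hDt).smul _

/-- boundedness of a good family (Schur test) -/
theorem Good.bound {L : X → ((G × I) →₀ ℝ) →ₗ[ℝ] ((G × J) →₀ ℝ)} (hL : Good L) :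
    ∃ C : ℝ, 1 ≤ C ∧ ∀ x v, ip (L x v) (L x v) ≤ C * ip v v := by
  classical
  obtain ⟨F, hF⟩ := hL.rng
  obtain ⟨c, hc⟩ := hL.bdd
  refine ⟨1 + ((F.card * Fintype.card I : ℕ) : ℝ) * (((F.card * Fintype.card J : ℕ) : ℝ) * c ^ 2),
    by have : (0 : ℝ) ≤ ((F.card * Fintype.card I : ℕ) : ℝ) *
        (((F.card * Fintype.card J : ℕ) : ℝ) * c ^ 2) := by positivity
       linarith, fun x v => ?_⟩
  let e : G × I → G × J → ℝ := fun r p => L x (Finsupp.single r 1) p
  have he : ∀ r p, |e r p| ≤ c := fun r p => hc x r.1 r.2 p.1 p.2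
  have heF : ∀ r p, e r p ≠ 0 → p.1 * r.1⁻¹ ∈ F := fun r p => hF x r.1 r.2 p.1 p.2
  have h1 : ∀ p, L x v p = ∑ r ∈ v.support, v r * e r p := fun p =>
    apply_eq (L x) v v.support subset_rfl p
  have hcard1 : ∀ p, ((v.support.filter fun r => e r p ≠ 0).card : ℝ) ≤
      ((F.card * Fintype.card I : ℕ) : ℝ) := by
    intro p
    norm_cast
    rw [← Finset.card_univ (α := I), ← card_product]
    refine card_le_card_of_injOn (fun r => (p.1 * r.1⁻¹, r.2)) ?_ ?_
    · intro r hr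
      rw [mem_coe, mem_filter] at hr
      rw [mem_coe, mem_product]
      exact ⟨heF r p hr.2, mem_univ _⟩
    · intro r _ r' _ h
      simp only [Prod.mk.injEq, mul_right_inj, inv_inj] at h
      exact Prod.ext h.1 h.2
  have hcard2 : ∀ (S : Finset (G × J)) r, ((S.filter fun p => e r p ≠ 0).card : ℝ) ≤
      ((F.card * Fintype.card J : ℕ) : ℝ) := by
    intro S r
    norm_cast
    rw [← Finset.card_univ (α := J), ← card_product]
    refine card_le_card_of_injOn (fun p => (p.1 * r.1⁻¹, p.2)) ?_ ?_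
    · intro p hp
      rw [mem_coe, mem_filter] at hp
      rw [mem_coe, mem_product]
      exact ⟨heF r p hp.2, mem_univ _⟩
    · intro p _ p' _ h
      simp only [Prod.mk.injEq, mul_left_inj] at h
      exact Prod.ext h.1 h.2
  have h2 : ∀ p, (L x v p) * (L x v p) ≤ ((F.card * Fintype.card I : ℕ) : ℝ) *
      ∑ r ∈ v.support, v r ^ 2 * e r p ^ 2 := by
    intro p
    rw [h1, ← sq]
    have e1 : ∑ r ∈ v.support, v r * e r p = ∑ r ∈ v.support.filter (fun r => e r p ≠ 0),
        v r * e r p := by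
      rw [sum_filter]
      refine sum_congr rfl fun r _ => ?_
      by_cases h : e r p = 0 <;> simp [h]
    have e2 : ∑ r ∈ v.support, v r ^ 2 * e r p ^ 2 =
        ∑ r ∈ v.support.filter (fun r => e r p ≠ 0), (v r * e r p) ^ 2 := by
      rw [sum_filter]
      refine sum_congr rfl fun r _ => ?_
      by_cases h : e r p = 0 <;> simp [h, mul_pow]
    rw [e1, e2]
    refine (sq_sum_le_card_mul_sum_sq).trans ?_
    exact mul_le_mul_of_nonneg_right (hcard1 p) (sum_nonneg fun _ _ => sq_nonneg _)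
  have h3 : ∀ r, ∑ p ∈ (L x v).support, e r p ^ 2 ≤ ((F.card * Fintype.card J : ℕ) : ℝ) * c ^ 2 := by
    intro r
    have e1 : ∑ p ∈ (L x v).support, e r p ^ 2 =
        ∑ p ∈ (L x v).support.filter (fun p => e r p ≠ 0), e r p ^ 2 := by
      rw [sum_filter]
      refine sum_congr rfl fun p _ => ?_
      by_cases h : e r p = 0 <;> simp [h]
    rw [e1]
    calc ∑ p ∈ (L x v).support.filter (fun p => e r p ≠ 0), e r p ^ 2
        ≤ ∑ p ∈ (L x v).support.filter (fun p => e r p ≠ 0), c ^ 2 := by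
          refine sum_le_sum fun p _ => ?_
          rw [← sq_abs]
          exact pow_le_pow_left₀ (abs_nonneg _) (he r p) 2
      _ = ((L x v).support.filter (fun p => e r p ≠ 0)).card * c ^ 2 := by
          rw [sum_const, nsmul_eq_mul]
      _ ≤ _ := mul_le_mul_of_nonneg_right (hcard2 _ r) (sq_nonneg _)
  rw [ip_eq (L x v) (L x v) (L x v).support subset_rfl, ip_eq v v v.support subset_rfl]
  calc ∑ p ∈ (L x v).support, L x v p * L x v p
      ≤ ∑ p ∈ (L x v).support, ((F.card * Fintype.card I : ℕ) : ℝ) *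
        ∑ r ∈ v.support, v r ^ 2 * e r p ^ 2 := sum_le_sum fun p _ => h2 p
    _ = ((F.card * Fintype.card I : ℕ) : ℝ) * ∑ r ∈ v.support, v r ^ 2 *
        ∑ p ∈ (L x v).support, e r p ^ 2 := by
        rw [← mul_sum, sum_comm]
        congr 1
        exact sum_congr rfl fun r _ => (mul_sum _ _ _).symm
    _ ≤ ((F.card * Fintype.card I : ℕ) : ℝ) * ∑ r ∈ v.support, v r ^ 2 *
        (((F.card * Fintype.card J : ℕ) : ℝ) * c ^ 2) := by
        refine mul_le_mul_of_nonneg_left (sum_le_sum fun r _ => ?_) (by positivity)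
        exact mul_le_mul_of_nonneg_left (h3 r) (sq_nonneg _)
    _ = (((F.card * Fintype.card I : ℕ) : ℝ) * (((F.card * Fintype.card J : ℕ) : ℝ) * c ^ 2)) *
        ∑ r ∈ v.support, v r * v r := by
        rw [← sum_mul]
        have : ∑ r ∈ v.support, v r ^ 2 = ∑ r ∈ v.support, v r * v r :=
          sum_congr rfl fun r _ => sq _
        rw [this]; ring
    _ ≤ _ := by
        refine mul_le_mul_of_nonneg_right (by linarith) (sum_nonneg fun r _ => mul_self_nonneg _)

end Good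

section Trace

variable {G X I J : Type*} [Group G] [MeasurableSpace X] [MulAction G X]
  [Fintype I] [Fintype J] {μ : Measure X} [IsProbabilityMeasure μ]

theorem bdd_integrable {f : X → ℝ} (hf : Measurable f) {c : ℝ} (hc : ∀ x, |f x| ≤ c) :
    Integrable f μ :=
  Integrable.of_bound hf.aestronglyMeasurable c (Filter.Eventually.of_forall fun x => by
    rw [Real.norm_eq_abs]; exact hc x)

/-- the trace property -/
theorem trace_comm (hact : ∀ g : G, MeasurePreserving (fun x : X => g • x) μ μ)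
    {L : X → ((G × I) →₀ ℝ) →ₗ[ℝ] ((G × J) →₀ ℝ)}
    {M : X → ((G × J) →₀ ℝ) →ₗ[ℝ] ((G × I) →₀ ℝ)} (hL : Good L) (hM : Good M) :
    ∑ i, ∫ x, M x (L x (Finsupp.single (1, i) 1)) (1, i) ∂μ =
      ∑ j, ∫ x, L x (M x (Finsupp.single (1, j) 1)) (1, j) ∂μ := by
  classical
  obtain ⟨F1, hF1⟩ := hL.rng
  obtain ⟨F2, hF2⟩ := hM.rng
  obtain ⟨c, hc⟩ := hL.bdd
  obtain ⟨c', hc'⟩ := hM.bdd
  let F : Finset G := (F1 ∪ F2) ∪ (F1 ∪ F2).image (·⁻¹)
  have hFinv : ∀ g ∈ F, g⁻¹ ∈ F := by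
    intro g hg
    rcases mem_union.mp hg with h | h
    · exact mem_union_right _ (mem_image_of_mem _ h)
    · obtain ⟨g', hg', rfl⟩ := mem_image.mp h
      simp only [inv_inv]
      exact mem_union_left _ hg'
  have hFL : ∀ x a i b j, L x (Finsupp.single (a, i) 1) (b, j) ≠ 0 → b * a⁻¹ ∈ F :=
    fun x a i b j h => mem_union_left _ (mem_union_left _ (hF1 x a i b j h))
  have hFM : ∀ x a i b j, M x (Finsupp.single (a, i) 1) (b, j) ≠ 0 → b * a⁻¹ ∈ F :=
    fun x a i b j h => mem_union_left _ (mem_union_right _ (hF2 x a i b j h))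
  have hm1 : ∀ a i b j, Measurable fun x => L x (Finsupp.single (a, i) 1) (b, j) *
      M x (Finsupp.single (b, j) 1) (a, i) := fun a i b j => (hL.meas _ _ _ _).mul (hM.meas _ _ _ _)
  have hb1 : ∀ a i b j x, |L x (Finsupp.single (a, i) 1) (b, j) *
      M x (Finsupp.single (b, j) 1) (a, i)| ≤ |c| * |c'| := by
    intro a i b j x
    rw [abs_mul]
    exact mul_le_mul ((hc _ _ _ _ _).trans (le_abs_self _)) ((hc' _ _ _ _ _).trans (le_abs_self _))
      (abs_nonneg _) (abs_nonneg _)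
  have hI : ∀ a i b j, Integrable (fun x => L x (Finsupp.single (a, i) 1) (b, j) *
      M x (Finsupp.single (b, j) 1) (a, i)) μ := fun a i b j =>
    bdd_integrable (hm1 a i b j) (hb1 a i b j)
  have e1 : ∀ i, ∫ x, M x (L x (Finsupp.single (1, i) 1)) (1, i) ∂μ =
      ∑ g ∈ F, ∑ j, ∫ x, L x (Finsupp.single (1, i) 1) (g, j) *
        M x (Finsupp.single (g, j) 1) (1, i) ∂μ := by
    intro i
    have : ∀ x, M x (L x (Finsupp.single (1, i) 1)) (1, i) = ∑ g ∈ F, ∑ j,
        L x (Finsupp.single (1, i) 1) (g, j) * M x (Finsupp.single (g, j) 1) (1, i) := by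
      intro x
      rw [comp_entry (hFL x) 1 i]
      simp only [mul_one]
    simp only [this]
    rw [integral_finsetSum _ fun g _ => integrable_finsetSum _ fun j _ => hI _ _ _ _]
    exact sum_congr rfl fun g _ => integral_finsetSum _ fun j _ => hI _ _ _ _
  have hI2 : ∀ a i b j, Integrable (fun x => M x (Finsupp.single (b, j) 1) (a, i) *
      L x (Finsupp.single (a, i) 1) (b, j)) μ := fun a i b j =>
    (hI a i b j).congr (Filter.Eventually.of_forall fun x => mul_comm _ _)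
  have e2 : ∀ j, ∫ x, L x (M x (Finsupp.single (1, j) 1)) (1, j) ∂μ =
      ∑ g ∈ F, ∑ i, ∫ x, M x (Finsupp.single (1, j) 1) (g, i) *
        L x (Finsupp.single (g, i) 1) (1, j) ∂μ := by
    intro j
    have : ∀ x, L x (M x (Finsupp.single (1, j) 1)) (1, j) = ∑ g ∈ F, ∑ i,
        M x (Finsupp.single (1, j) 1) (g, i) * L x (Finsupp.single (g, i) 1) (1, j) := by
      intro x
      rw [comp_entry (hFM x) 1 j]
      simp only [mul_one]
    simp only [this]
    rw [integral_finsetSum _ fun g _ => integrable_finsetSum _ fun i _ => hI2 _ _ _ _]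
    exact sum_congr rfl fun g _ => integral_finsetSum _ fun i _ => hI2 _ _ _ _
  have e3 : ∀ g i j, ∫ x, L x (Finsupp.single (1, i) 1) (g, j) *
        M x (Finsupp.single (g, j) 1) (1, i) ∂μ =
      ∫ x, M x (Finsupp.single (1, j) 1) (g⁻¹, i) * L x (Finsupp.single (g⁻¹, i) 1) (1, j) ∂μ := by
    intro g i j
    have h2 : ∫ x, L x (Finsupp.single (1, i) 1) (g, j) * M x (Finsupp.single (g, j) 1) (1, i) ∂μ =
        ∫ x, L (g⁻¹ • x) (Finsupp.single (1, i) 1) (g, j) *
          M (g⁻¹ • x) (Finsupp.single (g, j) 1) (1, i) ∂μ := by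
      conv_lhs => rw [← (hact g⁻¹).map_eq]
      rw [integral_map (hact g⁻¹).measurable.aemeasurable (hm1 _ _ _ _).aestronglyMeasurable]
    rw [h2]
    refine integral_congr_ae (Filter.Eventually.of_forall fun x => ?_)
    simp only
    rw [hL.equi, hM.equi, one_mul, mul_inv_cancel, mul_comm]
  simp only [e1, e2]
  rw [sum_comm' (t' := F) (s' := fun _ => univ) (by simp)]
  conv_rhs => rw [sum_comm' (t' := F) (s' := fun _ => univ) (by simp)]
  refine sum_bij (fun (g : G) _ => g⁻¹) (fun g hg => hFinv g hg)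
    (fun g _ g' _ h => inv_injective h) (fun g hg => ⟨g⁻¹, hFinv g hg, inv_inv g⟩)
    (fun g _ => ?_)
  rw [sum_comm]
  exact sum_congr rfl fun j _ => sum_congr rfl fun i _ => e3 g i j

/-- the rank inequality -/
theorem rank_le (hact : ∀ g : G, MeasurePreserving (fun x : X => g • x) μ μ)
    (P : I → Set X) (hPm : ∀ i, MeasurableSet (P i)) (Q : J → Set X) (hQm : ∀ j, MeasurableSet (Q j))
    {D : X → ((G × J) →₀ ℝ) →ₗ[ℝ] ((G × I) →₀ ℝ)}
    {Dt D' : X → ((G × I) →₀ ℝ) →ₗ[ℝ] ((G × J) →₀ ℝ)} (hD : Good D) (hDt : Good Dt)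
    (hD' : Good D') (hadj : ∀ x, Adj (D x) (Dt x))
    (hP : ∀ x v a i, a • x ∉ P i → D x v (a, i) = 0)
    (hQ : ∀ x b j, b • x ∉ Q j → D x (Finsupp.single (b, j) 1) = 0)
    (hDD : ∀ x v, (∀ a i, a • x ∉ P i → v (a, i) = 0) → D x (D' x v) = v) :
    ∑ i, μ.real (P i) ≤ ∑ j, μ.real (Q j) := by
  classical
  obtain ⟨C, hC1, hCb⟩ := hD.bound
  obtain ⟨C', hC1', hCb'⟩ := hD'.bound
  have hC : 0 < C := lt_of_lt_of_le one_pos hC1
  have hC' : 0 < C' := lt_of_lt_of_le one_pos hC1'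
  have hCC : 1 ≤ C * C' := one_le_mul_of_one_le_of_one_le hC1 hC1'
  obtain ⟨θ, hθ⟩ : ∃ θ, θ = 1 - (C * C')⁻¹ := ⟨_, rfl⟩
  have hθ0 : 0 ≤ θ := by rw [hθ, sub_nonneg]; exact inv_le_one_of_one_le₀ hCC
  have hθ1 : θ < 1 := by rw [hθ, sub_lt_self_iff]; positivity
  have key : ∀ N : ℕ, (1 - θ ^ N) * ∑ i, μ.real (P i) ≤ ∑ j, μ.real (Q j) := by
    intro N
    have hpt := fun x => main_pt (hadj x) hC hC' hCC (hCb x) (hCb' x)
      {p : G × I | p.1 • x ∈ P p.2} (fun v p hp => hP x v p.1 p.2 hp)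
      (fun v hv => hDD x v fun a i h => hv (a, i) h) N
    have hK := hD.KK hDt C (N + N)
    have htr := trace_comm hact hK hD
    obtain ⟨c1, hc1⟩ := (hK.comp hD).bdd
    obtain ⟨c2, hc2⟩ := (hD.comp hK).bdd
    calc (1 - θ ^ N) * ∑ i, μ.real (P i)
        = ∑ i, ∫ x, (P i).indicator (fun _ => 1 - θ ^ N) x ∂μ := by
          rw [mul_sum]
          refine sum_congr rfl fun i _ => ?_
          rw [integral_indicator_const _ (hPm i), smul_eq_mul, mul_comm]
      _ ≤ ∑ i, ∫ x, D x (FI1.KK (D x) (Dt x) C (N + N) (Finsupp.single (1, i) 1)) (1, i) ∂μ := by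
          refine sum_le_sum fun i _ => integral_mono ?_ ?_ fun x => ?_
          · exact (integrable_const _).indicator (hPm i)
          · exact bdd_integrable ((hK.comp hD).meas _ _ _ _) (fun x => hc1 x _ _ _ _)
          · simp only [Set.indicator_apply]
            split_ifs with hx
            · have := (hpt x).1 (1, i) (by simpa using hx)
              rw [hθ]; exact this
            · exact ((hpt x).2.1 (1, i) (by simpa using hx)).ge
      _ = ∑ j, ∫ x, FI1.KK (D x) (Dt x) C (N + N) (D x (Finsupp.single (1, j) 1)) (1, j) ∂μ := htr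
      _ ≤ ∑ j, ∫ x, (Q j).indicator (fun _ => (1 : ℝ)) x ∂μ := by
          refine sum_le_sum fun j _ => integral_mono ?_ ?_ fun x => ?_
          · exact bdd_integrable ((hD.comp hK).meas _ _ _ _) (fun x => hc2 x _ _ _ _)
          · exact (integrable_const _).indicator (hQm j)
          · simp only [Set.indicator_apply]
            split_ifs with hx
            · exact (hpt x).2.2.1 (1, j)
            · exact ((hpt x).2.2.2 (1, j) (hQ x 1 j (by simpa using hx))).le
      _ = ∑ j, μ.real (Q j) := by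
          refine sum_congr rfl fun j _ => ?_
          rw [integral_indicator_const _ (hQm j), smul_eq_mul, mul_one]
  have hlim : Filter.Tendsto (fun N : ℕ => (1 - θ ^ N) * ∑ i, μ.real (P i)) Filter.atTop
      (nhds ((1 - 0) * ∑ i, μ.real (P i))) :=
    ((tendsto_const_nhds).sub (tendsto_pow_atTop_nhds_zero_of_lt_one hθ0 hθ1)).mul_const _
  rw [sub_zero, one_mul] at hlim
  exact le_of_tendsto' hlim key

end Trace

end Pool.Agent.KS6_32.FI1
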