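import Pool.Graph.R_seed8.TH722.FI.JC
import Pool.Agent.KS6_32.FI1.Rank

/-!
Trees: the sides of an edge, the gradient identity, and the edges of the hybrid tree which
separate the ends of a block path (project MP_572a3e_an, `L^1`).
-/

set_option autoImplicit false

namespace Pool.Agent.KS6_32.FI1

open Finset Pool.Agent.TH722.FI

section Sides

variable {V : Type*}

open Classical in
/-- indicator of the side of `b` of the edge `{a, b}` -/
noncomputable def sd (A : SimpleGraph V) (a b c : V) : ℝ :=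
  if (A.deleteEdges {s(a, b)}).Reachable c b then 1 else 0

theorem sd_right (A : SimpleGraph V) (a b : V) : sd A a b b = 1 := by
  unfold sd
  rw [if_pos (SimpleGraph.Reachable.refl _)]

theorem sd_left {A : SimpleGraph V} (hA : A.IsTree) {a b : V} (h : A.Adj a b) : sd A a b a = 0 := by
  unfold sd
  rw [if_neg]
  have h1 := (SimpleGraph.isAcyclic_iff_forall_adj_isBridge.mp hA.isAcyclic) h
  rw [SimpleGraph.isBridge_iff] at h1
  exact h1

theorem sd_eq_of_reach (A : SimpleGraph V) (a b : V) {c c' : V}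
    (h : (A.deleteEdges {s(a, b)}).Reachable c c') : sd A a b c = sd A a b c' := by
  unfold sd
  by_cases h1 : (A.deleteEdges {s(a, b)}).Reachable c b
  · rw [if_pos h1, if_pos (h.symm.trans h1)]
  · rw [if_neg h1, if_neg fun h2 => h1 (h.trans h2)]

theorem sd_eq_of_adj (A : SimpleGraph V) (a b : V) {c c' : V} (h : A.Adj c c')
    (hne : s(c, c') ≠ s(a, b)) : sd A a b c = sd A a b c' := by
  apply sd_eq_of_reach
  apply SimpleGraph.Adj.reachable
  rw [SimpleGraph.deleteEdges_adj]
  exact ⟨h, hne⟩

theorem sd_abs (A : SimpleGraph V) (a b c c' : V) : |sd A a b c - sd A a b c'| ≤ 1 := by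
  unfold sd
  split_ifs <;> simp

/-- the gradient identity in a tree whose edges are enumerated by `κ` -/
theorem grad {κ : Type*} {A : SimpleGraph V} (hA : A.IsTree) (em ep : κ → V)
    (hadj : ∀ f, A.Adj (em f) (ep f))
    (hinj : ∀ f f', s(em f, ep f) = s(em f', ep f') → f = f')
    (hsurj : ∀ a b, A.Adj a b → ∃ f, s(em f, ep f) = s(a, b)) {u v : V} (p : A.Walk u v) :
    ∃ Φ0 : Finset κ, (∀ f, f ∉ Φ0 → sd A (em f) (ep f) u = sd A (em f) (ep f) v) ∧
      ∀ (s : V → ℝ) (Φ : Finset κ), Φ0 ⊆ Φ →
        ∑ f ∈ Φ, (s (ep f) - s (em f)) * (sd A (em f) (ep f) v - sd A (em f) (ep f) u) =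
          s v - s u := by
  classical
  induction p with
  | nil =>
    refine ⟨∅, fun f _ => rfl, fun s Φ _ => ?_⟩
    simp
  | @cons u w v h q ih =>
    obtain ⟨Φ1, h1, h2⟩ := ih
    obtain ⟨f0, hf0⟩ := hsurj u w h
    have hne : ∀ f, f ≠ f0 → sd A (em f) (ep f) u = sd A (em f) (ep f) w := by
      intro f hf
      apply sd_eq_of_adj A _ _ h
      intro e
      exact hf (hinj f f0 (by rw [hf0, e]))
    refine ⟨insert f0 Φ1, fun f hf => ?_, fun s Φ hΦ => ?_⟩
    · rw [mem_insert, not_or] at hf
      rw [hne f hf.1, h1 f hf.2]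
    · have hf0Φ : f0 ∈ Φ := hΦ (mem_insert_self _ _)
      have e1 : ∑ f ∈ Φ, (s (ep f) - s (em f)) * (sd A (em f) (ep f) v - sd A (em f) (ep f) u) =
          ∑ f ∈ Φ, (s (ep f) - s (em f)) * (sd A (em f) (ep f) v - sd A (em f) (ep f) w) +
          ∑ f ∈ Φ, (s (ep f) - s (em f)) * (sd A (em f) (ep f) w - sd A (em f) (ep f) u) := by
        rw [← sum_add_distrib]
        exact sum_congr rfl fun f _ => by ring
      have e2 : ∑ f ∈ Φ, (s (ep f) - s (em f)) * (sd A (em f) (ep f) w - sd A (em f) (ep f) u) =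
          (s (ep f0) - s (em f0)) * (sd A (em f0) (ep f0) w - sd A (em f0) (ep f0) u) := by
        refine sum_eq_single f0 (fun f _ hf => ?_) (fun hn => absurd hf0Φ hn)
        rw [hne f hf, sub_self, mul_zero]
      have e3 : (s (ep f0) - s (em f0)) * (sd A (em f0) (ep f0) w - sd A (em f0) (ep f0) u) =
          s w - s u := by
        have hl := sd_left hA (hadj f0)
        have hr := sd_right A (em f0) (ep f0)
        rcases Sym2.eq_iff.mp hf0 with ⟨a1, a2⟩ | ⟨a1, a2⟩
        · rw [a1, a2] at hl hr ⊢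
          rw [hl, hr]; ring
        · rw [a1, a2] at hl hr ⊢
          rw [hl, hr]; ring
      rw [e1, h2 s Φ ((subset_insert _ _).trans hΦ), e2, e3]
      ring

end Sides

section Cross

variable {V : Type*}

theorem near_self {U T C : SimpleGraph V} (hU : U.Connected) (key : V → ℝ) (b : V) :
    Near U T C key b b := by
  intro w _
  by_cases h : w = b
  · subst h
    exact Or.inr ⟨rfl, le_rfl⟩
  · left
    rw [SimpleGraph.dist_self]
    exact hU.pos_dist_of_ne (Ne.symm h)

/-- a block edge which separates the ends of a pair in one block is not longer than the pair -/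
theorem cross (U T C : SimpleGraph V) (hU : U.IsTree) (hT : T.IsTree) (hC : C ≤ T)
    (N : ℕ → ℕ) (hN : BallBd U N) (key : V → ℝ) (hkey : Function.Injective key) {b b' x y : V}
    (hb : Blk T C b b') (hxy : x ≠ y)
    (hsep : ¬ ((Hyb U T C key).deleteEdges {s(x, y)}).Reachable b b') :
    U.dist x y ≤ U.dist b b' ∧ U.dist b x ≤ 3 * U.dist b b' := by
  classical
  have hUc := hU.connected
  choose π hπ hπu using fun u => Jobs.near_exists U T C hU hT hC N hN key hkey u b
  have hπb : π b = b := (hπu b b ⟨SimpleGraph.Reachable.refl _, near_self hUc key b⟩).symm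
  have hπb' : π b' = b' := (hπu b' b' ⟨hb, near_self hUc key b'⟩).symm
  have hblk : ∀ u v, Blk T C (π u) (π v) := fun u v =>
    SimpleGraph.Reachable.trans (SimpleGraph.Reachable.symm (hπ u).1) (hπ v).1
  have hadj : ∀ u v, U.Adj u v → π u ≠ π v → (Hyb U T C key).Adj (π u) (π v) := by
    intro u v huv hne
    exact Or.inr ⟨hne, hblk u v, u, v, huv, (hπ u).2, (hπ v).2⟩
  have hwalk : ∀ (u v : V) (p : U.Walk u v),
      (∀ d ∈ p.darts, s(π d.fst, π d.snd) ≠ s(x, y)) →
      ((Hyb U T C key).deleteEdges {s(x, y)}).Reachable (π u) (π v) := by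
    intro u v p
    induction p with
    | nil => intro _; exact SimpleGraph.Reachable.refl _
    | @cons u w v h q ih =>
      intro hd
      have h1 := ih fun d hd' => hd d (by
        rw [SimpleGraph.Walk.darts_cons]; exact List.mem_cons_of_mem _ hd')
      by_cases hne : π u = π w
      · rw [hne]; exact h1
      · refine SimpleGraph.Reachable.trans (SimpleGraph.Adj.reachable ?_) h1
        rw [SimpleGraph.deleteEdges_adj]
        refine ⟨hadj u w h hne, ?_⟩
        exact hd ⟨(u, w), h⟩ (by rw [SimpleGraph.Walk.darts_cons]; exact List.mem_cons_self)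
  have hlen : ∀ (u v : V) (p : U.Walk u v), ∀ d ∈ p.darts,
      U.dist u d.fst + 1 + U.dist d.snd v ≤ p.length := by
    intro u v p
    induction p with
    | nil => intro d hd; simp at hd
    | @cons u w v h q ih =>
      intro d hd
      rw [SimpleGraph.Walk.darts_cons, List.mem_cons] at hd
      rw [SimpleGraph.Walk.length_cons]
      rcases hd with rfl | hd
      · have := SimpleGraph.dist_le q
        simp only [SimpleGraph.dist_self]
        omega
      · have h1 := ih d hd
        have h2 : U.dist u d.fst ≤ U.dist u w + U.dist w d.fst := hUc.dist_triangle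
        have h3 : U.dist u w = 1 := SimpleGraph.dist_eq_one_iff_adj.mpr h
        omega
  obtain ⟨p, hp⟩ := hUc.exists_walk_length_eq_dist b b'
  have hex : ∃ d ∈ p.darts, s(π d.fst, π d.snd) = s(x, y) := by
    by_contra hn
    push Not at hn
    have := hwalk b b' p hn
    rw [hπb, hπb'] at this
    exact hsep this
  obtain ⟨d, hd, hde⟩ := hex
  have hl := hlen b b' p d hd
  rw [hp] at hl
  obtain ⟨u, hu⟩ : ∃ u, u = d.fst := ⟨_, rfl⟩
  obtain ⟨v, hv⟩ : ∃ v, v = d.snd := ⟨_, rfl⟩
  have huv : U.Adj u v := by rw [hu, hv]; exact d.adj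
  rw [← hu, ← hv] at hde hl
  have hn1 : ∀ w, Blk T C b w → ∀ z, U.dist z (π z) ≤ U.dist z w := by
    intro w hw z
    have := (hπ z).2 w (SimpleGraph.Reachable.trans (SimpleGraph.Reachable.symm (hπ z).1) hw)
    rcases this with h | h
    · exact h.le
    · exact h.1.le
  have hA := hn1 b (SimpleGraph.Reachable.refl _) u
  have hB := hn1 b' hb v
  have hne : π u ≠ π v := by
    intro e
    rcases Sym2.eq_iff.mp hde with ⟨a1, a2⟩ | ⟨a1, a2⟩
    · exact hxy (by rw [← a1, ← a2, e])
    · exact hxy (by rw [← a1, ← a2, e])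
  obtain ⟨-, -, hg, -, -⟩ := Jobs.block_geo U T C hU hT hC key hkey (π u) (π v) u v hne (hblk u v)
    huv (hπ u).2 (hπ v).2
  have c1 : U.dist u b = U.dist b u := SimpleGraph.dist_comm
  have c2 : U.dist b' v = U.dist v b' := SimpleGraph.dist_comm
  have t1 : U.dist b (π u) ≤ U.dist b u + U.dist u (π u) := hUc.dist_triangle
  have t2 : U.dist b (π v) ≤ U.dist b b' + U.dist b' (π v) := hUc.dist_triangle
  have t3 : U.dist b' (π v) ≤ U.dist b' v + U.dist v (π v) := hUc.dist_triangle
  rcases Sym2.eq_iff.mp hde with ⟨a1, a2⟩ | ⟨a1, a2⟩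
  · rw [← a1, ← a2]
    constructor <;> omega
  · rw [← a1, ← a2]
    have c3 : U.dist (π v) (π u) = U.dist (π u) (π v) := SimpleGraph.dist_comm
    constructor <;> omega

end Cross

end Pool.Agent.KS6_32.FI1
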