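import Pool.Graph.R_seed8.TH722.FI.HP2
import Pool.Agent.KS6_32.FI1.Tree

/-!
The families of matrices attached to the block edges and to the edges of the second action
(project MP_572a3e_an, `L^1`).
-/

set_option autoImplicit false

namespace Pool.Agent.KS6_32.FI1

open Finset MeasureTheory Pool.Agent.TH722.FI Pool.Agent.TH929.FI

section Lin

variable {G X I J : Type*} [Group G] [MeasurableSpace X] [MulAction G X]
  [Fintype I] [Fintype J]

open Classical in
/-- the linear map with matrix `e` -/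
noncomputable def lin (e : G × I → G × J → ℝ) (F : Finset G)
    (hF : ∀ a i b j, e (a, i) (b, j) ≠ 0 → b * a⁻¹ ∈ F) :
    ((G × I) →₀ ℝ) →ₗ[ℝ] ((G × J) →₀ ℝ) :=
  Finsupp.linearCombination ℝ (fun r : G × I =>
    Finsupp.onFinset ((F.image (· * r.1)) ×ˢ (univ : Finset J)) (e r) (by
      rintro ⟨b, j⟩ hb
      rw [mem_product, mem_image]
      exact ⟨⟨b * r.1⁻¹, hF r.1 r.2 b j hb, inv_mul_cancel_right _ _⟩, mem_univ _⟩))

theorem lin_single (e : G × I → G × J → ℝ) (F : Finset G)
    (hF : ∀ a i b j, e (a, i) (b, j) ≠ 0 → b * a⁻¹ ∈ F) (r : G × I) (q : G × J) :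
    lin e F hF (Finsupp.single r 1) q = e r q := by
  unfold lin
  rw [Finsupp.linearCombination_single, one_smul]
  rfl

theorem good_lin (e : X → G × I → G × J → ℝ) (F : Finset G)
    (hF : ∀ x a i b j, e x (a, i) (b, j) ≠ 0 → b * a⁻¹ ∈ F)
    (heq : ∀ (h : G) x a i b j, e (h • x) (a, i) (b, j) = e x (a * h, i) (b * h, j))
    (hb : ∀ x r q, |e x r q| ≤ 1) (hm : ∀ r q, Measurable fun x => e x r q) :
    Good (fun x => lin (e x) F (hF x)) where
  equi := fun h x a i b j => by rw [lin_single, lin_single, heq]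
  rng := ⟨F, fun x a i b j h => hF x a i b j (by rwa [lin_single] at h)⟩
  bdd := ⟨1, fun x a i b j => by rw [lin_single]; exact hb x _ _⟩
  meas := fun a i b j => by simp only [lin_single]; exact hm _ _

end Lin

section Equi

theorem sd_mul {G : Type*} [Group G] (H H' : SimpleGraph G) (h : G)
    (hH : ∀ a b, H'.Adj a b ↔ H.Adj (a * h) (b * h)) (a b c : G) :
    sd H' a b c = sd H (a * h) (b * h) (c * h) := by
  have : (H'.deleteEdges {s(a, b)}).Reachable c b ↔
      (H.deleteEdges {s(a * h, b * h)}).Reachable (c * h) (b * h) := by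
    refine reach_mul _ _ h (fun u v => ?_) c b
    rw [SimpleGraph.deleteEdges_adj, SimpleGraph.deleteEdges_adj, hH]
    simp only [Set.mem_singleton_iff, Sym2.eq_iff, mul_left_inj]
  unfold sd
  by_cases h1 : (H'.deleteEdges {s(a, b)}).Reachable c b
  · rw [if_pos h1, if_pos (this.mp h1)]
  · rw [if_neg h1, if_neg fun h2 => h1 (this.mpr h2)]

end Equi

section Main

variable {r : ℕ} {X : Type*} [MeasurableSpace X] {μ : Measure X}
  [MulAction (FreeGroup (Fin r)) X]


/-- side indicator of the block edge `{a, g a}` -/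
noncomputable def hs (T : FreeGroup (Fin r) → X → X) (E : Fin r → Set X) (key : X → ℝ) (x : X) (a g c : FreeGroup (Fin r)) : ℝ :=
  sd (HG T E key x) a (g * a) c

/-- side indicator of the `T`-edge issued from `b` in direction `j` -/
noncomputable def ts (T : FreeGroup (Fin r) → X → X) (β : Fin r → X → FreeGroup (Fin r)) (x : X) (b : FreeGroup (Fin r)) (j : Fin r) (c : FreeGroup (Fin r)) : ℝ :=
  sd (TG T x) b (β j (b • x) * b) c

/-- oriented block edges, of length at least `n`, whose `T`-path is bounded by `L` -/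
def PB (T : FreeGroup (Fin r) → X → X) (E : Fin r → Set X) (key : X → ℝ) (β : Fin r → X → FreeGroup (Fin r)) (n L : ℕ) (g : FreeGroup (Fin r)) :
    Set X :=
  {y | Bkp T E key y g ∧ key y < key (g • y) ∧ n ≤ g.norm ∧
    ∀ b j, ts T β y b j 1 ≠ ts T β y b j g → (β j (b • y)).norm ≤ L ∧ b.norm ≤ L}

/-- the non-chosen `T`-edges of length between `n` and `L` -/
def QB (E : Fin r → Set X) (β : Fin r → X → FreeGroup (Fin r)) (n L : ℕ) (j : Fin r) : Set X :=
  {y | y ∉ E j ∧ n ≤ (β j y).norm ∧ (β j y).norm ≤ L}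

theorem hs_smul [IsProbabilityMeasure μ] (T : FreeGroup (Fin r) → X → X) (hC : Common μ T) (E : Fin r → Set X)
    (key : X → ℝ) (x : X) (h a g c : FreeGroup (Fin r)) :
    hs T E key (h • x) a g c = hs T E key x (a * h) g (c * h) := by
  unfold hs
  rw [sd_mul (HG T E key x) (HG T E key (h • x)) h (hg_nat T hC E key x h).1, mul_assoc]

theorem ts_smul (T : FreeGroup (Fin r) → X → X) (β : Fin r → X → FreeGroup (Fin r)) (x : X) (h b : FreeGroup (Fin r)) (j : Fin r) (c : FreeGroup (Fin r)) :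
    ts T β (h • x) b j c = ts T β x (b * h) j (c * h) := by
  unfold ts
  rw [sd_mul (TG T x) (TG T (h • x)) h (fun a b => tg_adj_smul T x h a b), mul_assoc, smul_smul]

theorem ball_mem (n : ℕ) (g : FreeGroup (Fin r)) : g ∈ (norm_finite r n).toFinset ↔ g.norm ≤ n := by
  simp

theorem of_ne {T : FreeGroup (Fin r) → X → X} (hC : Common μ T) {i j : Fin r} {z : X}
    (h : T (FreeGroup.of i) z = T (FreeGroup.of j) z) : i = j := by
  have h1 : T ((FreeGroup.of i)⁻¹ * FreeGroup.of j) z = z := by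
    rw [hC.actT.mul, ← h, ← hC.actT.mul, inv_mul_cancel, hC.actT.one]
  have h2 := hC.actT.free _ _ h1
  rw [inv_mul_eq_one] at h2
  exact FreeGroup.of_injective h2

theorem of_mul_ne (i j : Fin r) : (FreeGroup.of i * FreeGroup.of j : FreeGroup (Fin r)) ≠ 1 := by
  intro h
  have h1 := congrArg (FreeGroup.lift (fun _ : Fin r => Multiplicative.ofAdd (1 : ℤ))) h
  rw [map_mul, FreeGroup.lift_apply_of, FreeGroup.lift_apply_of, MonoidHom.map_one, ← ofAdd_add,
    ofAdd_eq_one] at h1
  norm_num at h1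

theorem of_of_ne {T : FreeGroup (Fin r) → X → X} (hC : Common μ T) {i j : Fin r} {z : X} :
    T (FreeGroup.of i) (T (FreeGroup.of j) z) ≠ z := by
  intro h
  rw [← hC.actT.mul] at h
  exact of_mul_ne i j (hC.actT.free _ _ h)

variable {T : FreeGroup (Fin r) → X → X} {E : Fin r → Set X} {key : X → ℝ} {β : Fin r → X → FreeGroup (Fin r)}

theorem ep_smul (hβ : ∀ i x, T (FreeGroup.of i) x = β i x • x) (x : X) (f : FreeGroup (Fin r) × Fin r) :
    (β f.2 (f.1 • x) * f.1) • x = T (FreeGroup.of f.2) (f.1 • x) := by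
  rw [mul_smul, ← hβ]

/-- enumeration of the edges of `T` -/
theorem tg_enum (hC : Common μ T) (hβ : ∀ i x, T (FreeGroup.of i) x = β i x • x) (x : X) :
    (∀ f : FreeGroup (Fin r) × Fin r, (TG T x).Adj f.1 (β f.2 (f.1 • x) * f.1)) ∧
    (∀ f f' : FreeGroup (Fin r) × Fin r, s(f.1, β f.2 (f.1 • x) * f.1) = s(f'.1, β f'.2 (f'.1 • x) * f'.1) →
      f = f') ∧
    (∀ a b, (TG T x).Adj a b → ∃ f : FreeGroup (Fin r) × Fin r, s(f.1, β f.2 (f.1 • x) * f.1) = s(a, b)) := by
  refine ⟨fun f => ⟨?_, f.2, Or.inl (ep_smul hβ x f).symm⟩, fun f f' h => ?_, fun a b h => ?_⟩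
  · intro e
    have h1 := ep_smul hβ x f
    rw [← e] at h1
    exact FreeGroup.of_ne_one _ (hC.actT.free _ _ h1.symm)
  · have h1 := ep_smul hβ x f
    have h2 := ep_smul hβ x f'
    rcases Sym2.eq_iff.mp h with ⟨a1, a2⟩ | ⟨a1, a2⟩
    · rw [a2, h2, a1] at h1
      exact Prod.ext a1 (of_ne hC h1).symm
    · rw [a2] at h1
      rw [← a1, h1] at h2
      exact absurd h2.symm (of_of_ne hC)
  · obtain ⟨-, i, h | h⟩ := h
    · refine ⟨(a, i), ?_⟩
      have : β i (a • x) * a = b := by
        apply Pool.Agent.TH929.FI.smul_inj hC (x := x)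
        rw [mul_smul, ← hβ, h]
      rw [this]
    · refine ⟨(b, i), ?_⟩
      have : β i (b • x) * b = a := by
        apply Pool.Agent.TH929.FI.smul_inj hC (x := x)
        rw [mul_smul, ← hβ, h]
      rw [this]
      exact Sym2.eq_swap

theorem cc_chosen (hC : Common μ T) (hβ : ∀ i x, T (FreeGroup.of i) x = β i x • x) (x : X)
    (f : FreeGroup (Fin r) × Fin r) (hf : f.1 • x ∈ E f.2) : (CC T E x).Adj f.1 (β f.2 (f.1 • x) * f.1) :=
  ⟨((tg_enum hC hβ x).1 f).1, f.2, Or.inl ⟨hf, (ep_smul hβ x f).symm⟩⟩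

theorem blk_unchosen (hC : Common μ T) (hβ : ∀ i x, T (FreeGroup.of i) x = β i x • x) (x : X)
    (f : FreeGroup (Fin r) × Fin r) (hf : f.1 • x ∉ E f.2) :
    Blk (TG T x) (CC T E x) f.1 (β f.2 (f.1 • x) * f.1) := by
  apply SimpleGraph.Adj.reachable
  rw [SimpleGraph.sdiff_adj]
  refine ⟨(tg_enum hC hβ x).1 f, ?_⟩
  rintro ⟨-, i, ⟨h1, h2⟩ | ⟨h1, h2⟩⟩
  · rw [ep_smul hβ x f] at h2
    rw [of_ne hC h2] at h1
    exact hf h1
  · rw [ep_smul hβ x f] at h2
    exact of_of_ne hC h2

theorem bkp_iff [IsProbabilityMeasure μ] (hC : Common μ T) (x : X) (a g : FreeGroup (Fin r)) :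
    Bkp T E key (a • x) g ↔ (HG T E key x).Adj a (g * a) ∧ ¬ (CC T E x).Adj a (g * a) := by
  unfold Bkp
  rw [(hg_nat T hC E key x a).1, cc_adj_smul, one_mul]

/-! ### measurability -/

theorem comp_meas {Y : Type*} [MeasurableSpace Y] (γ : X → FreeGroup (Fin r)) (hγ : ∀ g, MeasurableSet {x | γ x = g})
    (φ : FreeGroup (Fin r) → X → Y) (hφ : ∀ g, Measurable (φ g)) : Measurable fun x => φ (γ x) x := by
  intro B hB
  have : (fun x => φ (γ x) x) ⁻¹' B = ⋃ g : FreeGroup (Fin r), ({x | γ x = g} ∩ φ g ⁻¹' B) := by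
    ext x
    simp
  rw [this]
  exact MeasurableSet.iUnion fun g => (hγ g).inter (hφ g hB)

theorem hs_meas [StandardBorelSpace X] (hC : Common μ T) (hE : ∀ i, MeasurableSet (E i))
    (hkey : Measurable key) (a g c : FreeGroup (Fin r)) : Measurable fun x => hs T E key x a g c := by
  unfold hs sd
  refine Measurable.ite (measurableSet_setOfPred.mpr ?_) measurable_const measurable_const
  refine reach_meas (fun x => (HG T E key x).deleteEdges {s(a, g * a)}) (fun u v => ?_) _ _
  simp only [SimpleGraph.deleteEdges_adj]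
  exact (hg_adj_meas T hC E hE key hkey u v).and measurable_const

theorem beta_set [StandardBorelSpace X] (hC : Common μ T)
    (hβ : ∀ i x, T (FreeGroup.of i) x = β i x • x) (j : Fin r) (b g : FreeGroup (Fin r)) :
    MeasurableSet {x : X | β j (b • x) = g} :=
  (hC.mpU b).measurable (measurableSet_setOfPred.mpr (beta_meas T hC β hβ j g))

theorem ts_meas [StandardBorelSpace X] (hC : Common μ T)
    (hβ : ∀ i x, T (FreeGroup.of i) x = β i x • x) (b : FreeGroup (Fin r)) (j : Fin r) (c : FreeGroup (Fin r)) :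
    Measurable fun x => ts T β x b j c := by
  unfold ts
  refine comp_meas (fun x => β j (b • x)) (fun g => beta_set hC hβ j b g)
    (fun g x => sd (TG T x) b (g * b) c) (fun g => ?_)
  unfold sd
  exact Measurable.ite (measurableSet_setOfPred.mpr (del_reach_meas T hC _ _ _))
    measurable_const measurable_const

theorem qb_meas [StandardBorelSpace X] (hC : Common μ T) (hE : ∀ i, MeasurableSet (E i))
    (hβ : ∀ i x, T (FreeGroup.of i) x = β i x • x) (n L : ℕ) (j : Fin r) :
    MeasurableSet (QB E β n L j) := by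
  have h1 := measurableSet_setOfPred.mpr (beta_pred T hC β hβ j (fun g => n ≤ g.norm ∧ g.norm ≤ L))
  have : QB E β n L j = (E j)ᶜ ∩ {x | n ≤ (β j x).norm ∧ (β j x).norm ≤ L} := rfl
  rw [this]
  exact (hE j).compl.inter h1

theorem pb_meas [StandardBorelSpace X] (hC : Common μ T) (hE : ∀ i, MeasurableSet (E i))
    (hkey : Measurable key)
    (hβ : ∀ i x, T (FreeGroup.of i) x = β i x • x) (n L : ℕ) (g : FreeGroup (Fin r)) :
    MeasurableSet (PB T E key β n L g) := by
  unfold PB
  apply measurableSet_setOfPred.mpr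
  refine Measurable.and ?_ (Measurable.and ?_ (measurable_const.and ?_))
  · exact (hg_adj_meas T hC E hE key hkey 1 g).and (cc_adj_meas T hC E hE 1 g).not
  · exact measurableSet_setOfPred.mp (measurableSet_lt hkey (hkey.comp (hC.mpU g).measurable))
  · refine Measurable.forall fun b => Measurable.forall fun j => Measurable.imp ?_ ?_
    · exact (Measurable.eq (ts_meas hC hβ b j 1) (ts_meas hC hβ b j g)).not
    · refine Measurable.and ?_ measurable_const
      exact (beta_pred T hC β hβ j (fun g => g.norm ≤ L)).comp (hC.mpU b).measurable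

end Main

end Pool.Agent.KS6_32.FI1
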