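import Pool.Graph.R_seed8.TH722.FI.Fin
import Pool.Agent.KS6_32.FI1.CS1

/-!
The main theorem for `L^1` orbit equivalence in terms of the working definitions. Adapted from the
library module `TH722.FI.Fin` (project MP_572a3e_an).
-/

set_option autoImplicit false

namespace Pool.Agent.KS6_32.FI1
open MeasureTheory Set Filter Pool.Agent.TH722.FI Pool.Agent.TH722.FI.Jobs
open scoped Topology ENNReal

/-- the main theorem in terms of the working definitions -/
theorem main_working1.{u, v, w} {r : ℕ} {X Y : Type u} [MeasurableSpace X] [StandardBorelSpace X]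
    [MeasurableSpace Y] [StandardBorelSpace Y] (μ : Measure X) (ν : Measure Y)
    [IsProbabilityMeasure μ] [IsProbabilityMeasure ν]
    [MulAction (FreeGroup (Fin r)) X] [MulAction (FreeGroup (Fin r)) Y]
    (hX : ∀ g : FreeGroup (Fin r), MeasurePreserving (fun x : X => g • x) μ μ)
    (hY : ∀ g : FreeGroup (Fin r), MeasurePreserving (fun y : Y => g • y) ν ν)
    (freeX : ∀ᵐ x ∂μ, ∀ g : FreeGroup (Fin r), g • x = x → g = 1)
    (freeY : ∀ᵐ y ∂ν, ∀ g : FreeGroup (Fin r), g • y = y → g = 1)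
    (Φ : X → Y) (Ψ : Y → X) (hΦ : MeasurePreserving Φ μ ν) (hΨ : MeasurePreserving Ψ ν μ)
    (h1 : ∀ᵐ x ∂μ, Ψ (Φ x) = x) (h2 : ∀ᵐ y ∂ν, Φ (Ψ y) = y)
    (horb : ∀ᵐ x ∂μ, Φ '' MulAction.orbit (FreeGroup (Fin r)) x =
      MulAction.orbit (FreeGroup (Fin r)) (Φ x))
    (α : FreeGroup (Fin r) → X → FreeGroup (Fin r)) (hα : ∀ᵐ x ∂μ, ∀ g, α g x • Φ x = Φ (g • x))
    (β : FreeGroup (Fin r) → Y → FreeGroup (Fin r)) (hβ : ∀ᵐ y ∂ν, ∀ g, β g y • Ψ y = Ψ (g • y))
    (hα2 : ∀ g, MemLp (fun x => ((α g x).norm : ℝ)) 1 μ)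
    (hβ2 : ∀ g, MemLp (fun y => ((β g y).norm : ℝ)) 1 ν)
    {P : Type v} {P' : Type w} {φ : X → P} {φ' : Y → P'} (hφ : IsLab μ φ) (hφ' : IsLab ν φ')
    (hgφ : Gen μ (fun (g : FreeGroup (Fin r)) (x : X) => g • x) φ)
    (hgφ' : Gen ν (fun (g : FreeGroup (Fin r)) (y : Y) => g • y) φ') :
    ∃ L : EReal, L ≠ ⊤ ∧
      Tendsto (fun n => ((BF μ (fun (g : FreeGroup (Fin r)) (x : X) => g • x)
        (ballLab (fun (g : FreeGroup (Fin r)) (x : X) => g • x) φ n) : ℝ) : EReal)) atTop (𝓝 L) ∧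
      Tendsto (fun n => ((BF ν (fun (g : FreeGroup (Fin r)) (y : Y) => g • y)
        (ballLab (fun (g : FreeGroup (Fin r)) (y : Y) => g • y) φ' n) : ℝ) : EReal))
        atTop (𝓝 L) := by
  obtain ⟨Z, i1, i2, m, i3, T, U, j, k, a, b, hT, hU, hTU, hUT, hj, hk, hjT, hkU, hjB, hkB, hb, ha,
    hb2, ha2⟩ := reduction μ ν hX hY freeX freeY Φ Ψ hΦ hΨ h1 h2 horb α hα β hβ 1 hα2 hβ2
  have lφ : IsLab m (fun z => φ (j z)) := (lab_comp hj hφ).1
  have lφ' : IsLab m (fun z => φ' (k z)) := (lab_comp hk hφ').1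
  have gφ : Gen m T (fun z => φ (j z)) := Gen_transfer T _ j hj hjT hjB hgφ
  have gφ' : Gen m U (fun z => φ' (k z)) := Gen_transfer U _ k hk hkU hkB hgφ'
  -- labels on balls
  have e1 : ∀ n, BF μ (fun (g : FreeGroup (Fin r)) (x : X) => g • x)
      (ballLab (fun (g : FreeGroup (Fin r)) (x : X) => g • x) φ n) =
      BF m T (ballLab T (fun z => φ (j z)) n) := by
    intro n
    have hl : IsLab μ (ballLab (fun (g : FreeGroup (Fin r)) (x : X) => g • x) φ n) := by
      have : Finite {k : FreeGroup (Fin r) // k.norm ≤ n} := (norm_finite r n).to_subtype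
      have := Fintype.ofFinite {k : FreeGroup (Fin r) // k.norm ≤ n}
      exact lab_pi (fun (k : {k : FreeGroup (Fin r) // k.norm ≤ n}) x => φ (k.1⁻¹ • x))
        (fun k => (lab_comp (hX k.1⁻¹) hφ).1)
    rw [← BF_transfer T (fun (g : FreeGroup (Fin r)) (x : X) => g • x) j hj hjT hX hl]
    congr 1
    funext z k
    simp only [ballLab, hjT]
  have e2 : ∀ n, BF ν (fun (g : FreeGroup (Fin r)) (x : Y) => g • x)
      (ballLab (fun (g : FreeGroup (Fin r)) (x : Y) => g • x) φ' n) =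
      BF m U (ballLab U (fun z => φ' (k z)) n) := by
    intro n
    have hl : IsLab ν (ballLab (fun (g : FreeGroup (Fin r)) (x : Y) => g • x) φ' n) := by
      have : Finite {k : FreeGroup (Fin r) // k.norm ≤ n} := (norm_finite r n).to_subtype
      have := Fintype.ofFinite {k : FreeGroup (Fin r) // k.norm ≤ n}
      exact lab_pi (fun (k : {k : FreeGroup (Fin r) // k.norm ≤ n}) x => φ' (k.1⁻¹ • x))
        (fun k => (lab_comp (hY k.1⁻¹) hφ').1)
    rw [← BF_transfer U (fun (g : FreeGroup (Fin r)) (x : Y) => g • x) k hk hkU hY hl]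
    congr 1
    funext z k
    simp only [ballLab, hkU]
  -- the two inequalities
  have c1 : ∀ n, ∀ ε > 0, ∃ n', BF m U (ballLab U (fun z => φ' (k z)) n') ≤
      BF m T (ballLab T (fun z => φ (j z)) n) + ε := by
    intro n ε hε
    letI := actOf U hU
    have hC : Common m T := ⟨hU.mp, hU.free, hT, fun g z => hTU g z, fun g z => hUT g z⟩
    exact cs1 T hC b hb (fun i => memLp_one_iff_integrable.mp (hb2 i)) a ha
      (fun i => memLp_one_iff_integrable.mp (ha2 i)) lφ gφ lφ' gφ' n ε hε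
  have c2 : ∀ n, ∀ ε > 0, ∃ n', BF m T (ballLab T (fun z => φ (j z)) n') ≤
      BF m U (ballLab U (fun z => φ' (k z)) n) + ε := by
    intro n ε hε
    letI := actOf T hT
    have hC : Common m U := ⟨hT.mp, hT.free, hU, fun g z => hUT g z, fun g z => hTU g z⟩
    exact cs1 U hC a ha (fun i => memLp_one_iff_integrable.mp (ha2 i)) b hb
      (fun i => memLp_one_iff_integrable.mp (hb2 i)) lφ' gφ' lφ gφ n ε hε
  have a1 := (BF_antitone T hT lφ).2
  have a2 := (BF_antitone U hU lφ').2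
  have hL : (⨅ n, ((BF m T (ballLab T (fun z => φ (j z)) n) : ℝ) : EReal)) =
      ⨅ n, ((BF m U (ballLab U (fun z => φ' (k z)) n) : ℝ) : EReal) :=
    le_antisymm (inf_le_inf _ _ c2) (inf_le_inf _ _ c1)
  refine ⟨⨅ n, ((BF m T (ballLab T (fun z => φ (j z)) n) : ℝ) : EReal), ?_, ?_, ?_⟩
  · exact ne_of_lt (lt_of_le_of_lt (iInf_le _ 0) (EReal.coe_lt_top _))
  · simp_rw [e1]
    exact antitone_lim _ a1
  · simp_rw [e2]
    rw [hL]
    exact antitone_lim _ a2

end Pool.Agent.KS6_32.FI1
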