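import Mathlib

/-!
Linear algebra of finitely supported functions (project MP_572a3e_an, `L^1`): from a right
inverse `D D' = 1` one gets almost a projection, by a power series.
-/

set_option autoImplicit false

namespace Pool.Agent.KS6_32.FI1

open Finset

section ip
variable {α β : Type*}

/-- inner product of finitely supported functions -/
noncomputable def ip (v w : α →₀ ℝ) : ℝ := v.sum fun p c => c * w p

theorem ip_eq (v w : α →₀ ℝ) (s : Finset α) (h : v.support ⊆ s) :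
    ip v w = ∑ p ∈ s, v p * w p := by
  unfold ip
  exact Finsupp.sum_of_support_subset _ h _ (by simp)

theorem ip_comm (v w : α →₀ ℝ) : ip v w = ip w v := by
  classical
  rw [ip_eq v w (v.support ∪ w.support) subset_union_left,
    ip_eq w v (v.support ∪ w.support) subset_union_right]
  exact sum_congr rfl fun p _ => mul_comm _ _

theorem ip_add_left (u v w : α →₀ ℝ) : ip (u + v) w = ip u w + ip v w := by
  unfold ip
  rw [Finsupp.sum_add_index'] <;> intros <;> ring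

theorem ip_smul_left (c : ℝ) (v w : α →₀ ℝ) : ip (c • v) w = c * ip v w := by
  classical
  rw [ip_eq (c • v) w v.support (Finsupp.support_smul), ip_eq v w v.support subset_rfl, mul_sum]
  exact sum_congr rfl fun p _ => by simp [mul_assoc]

theorem ip_sub_left (u v w : α →₀ ℝ) : ip (u - v) w = ip u w - ip v w := by
  have h : u - v = u + (-1 : ℝ) • v := by
    rw [neg_one_smul, sub_eq_add_neg]
  rw [h, ip_add_left, ip_smul_left]; ring

theorem ip_add_right (u v w : α →₀ ℝ) : ip u (v + w) = ip u v + ip u w := by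
  rw [ip_comm, ip_add_left, ip_comm v, ip_comm w]

theorem ip_smul_right (c : ℝ) (v w : α →₀ ℝ) : ip v (c • w) = c * ip v w := by
  rw [ip_comm, ip_smul_left, ip_comm w]

theorem ip_sub_right (u v w : α →₀ ℝ) : ip u (v - w) = ip u v - ip u w := by
  rw [ip_comm, ip_sub_left, ip_comm v, ip_comm w]

theorem ip_nonneg (v : α →₀ ℝ) : 0 ≤ ip v v := by
  rw [ip_eq v v v.support subset_rfl]
  exact sum_nonneg fun p _ => mul_self_nonneg _

theorem ip_single (p : α) (w : α →₀ ℝ) : ip (Finsupp.single p 1) w = w p := by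
  unfold ip
  rw [Finsupp.sum_single_index] <;> simp

/-- `Dt` is the transpose of `D` -/
def Adj (D : (β →₀ ℝ) →ₗ[ℝ] (α →₀ ℝ)) (Dt : (α →₀ ℝ) →ₗ[ℝ] (β →₀ ℝ)) : Prop :=
  ∀ p q, D (Finsupp.single q 1) p = Dt (Finsupp.single p 1) q

theorem single_eq (p : α) (c : ℝ) : Finsupp.single p c = c • Finsupp.single p (1 : ℝ) := by
  rw [Finsupp.smul_single, smul_eq_mul, mul_one]

theorem Adj.ip {D : (β →₀ ℝ) →ₗ[ℝ] (α →₀ ℝ)} {Dt : (α →₀ ℝ) →ₗ[ℝ] (β →₀ ℝ)} (h : Adj D Dt)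
    (η : β →₀ ℝ) (ξ : α →₀ ℝ) : ip (D η) ξ = FI1.ip η (Dt ξ) := by
  induction η using Finsupp.induction_linear with
  | zero => simp [FI1.ip]
  | add η₁ η₂ h1 h2 => rw [map_add, ip_add_left, ip_add_left, h1, h2]
  | single q c =>
    induction ξ using Finsupp.induction_linear with
    | zero => simp [FI1.ip]
    | add ξ₁ ξ₂ h1 h2 => rw [map_add, ip_add_right, ip_add_right, h1, h2]
    | single p d =>
      rw [single_eq q c, single_eq p d, map_smul, map_smul, ip_smul_left, ip_smul_left,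
        ip_smul_right, ip_smul_right, ip_single, ip_comm, ip_single, h p q]

end ip

section power
variable {α β : Type*} {D : (β →₀ ℝ) →ₗ[ℝ] (α →₀ ℝ)} {Dt : (α →₀ ℝ) →ₗ[ℝ] (β →₀ ℝ)}
  {D' : (α →₀ ℝ) →ₗ[ℝ] (β →₀ ℝ)} {C C' : ℝ}

/-- `1 - D D^t / C` -/
noncomputable def zz (D : (β →₀ ℝ) →ₗ[ℝ] (α →₀ ℝ)) (Dt : (α →₀ ℝ) →ₗ[ℝ] (β →₀ ℝ)) (C : ℝ) :
    Module.End ℝ (α →₀ ℝ) := 1 - C⁻¹ • (D ∘ₗ Dt)

/-- the approximate pseudo-inverse -/
noncomputable def KK (D : (β →₀ ℝ) →ₗ[ℝ] (α →₀ ℝ)) (Dt : (α →₀ ℝ) →ₗ[ℝ] (β →₀ ℝ)) (C : ℝ)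
    (N : ℕ) : (α →₀ ℝ) →ₗ[ℝ] (β →₀ ℝ) :=
  C⁻¹ • (Dt ∘ₗ (∑ k ∈ range N, zz D Dt C ^ k : Module.End ℝ (α →₀ ℝ)))

theorem zz_apply (v : α →₀ ℝ) : zz D Dt C v = v - C⁻¹ • D (Dt v) := rfl

theorem D_KK (N : ℕ) (v : α →₀ ℝ) : D (KK D Dt C N v) = v - (zz D Dt C ^ N) v := by
  have h := mul_neg_geom_sum (zz D Dt C) N
  have h2 : (∑ k ∈ range N, zz D Dt C ^ k) v - zz D Dt C ((∑ k ∈ range N, zz D Dt C ^ k) v) =
      v - (zz D Dt C ^ N) v := LinearMap.congr_fun h v
  rw [← h2, zz_apply, sub_sub_cancel]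
  simp only [KK, LinearMap.smul_apply, LinearMap.comp_apply, map_smul]

theorem zz_D (v : β →₀ ℝ) : zz D Dt C (D v) = D (zz Dt D C v) := by
  rw [zz_apply, zz_apply, map_sub, map_smul]

theorem zz_pow_D (k : ℕ) (v : β →₀ ℝ) : (zz D Dt C ^ k) (D v) = D ((zz Dt D C ^ k) v) := by
  induction k generalizing v with
  | zero => simp
  | succ k ih => rw [pow_succ, Module.End.mul_apply, zz_D, ih, pow_succ, Module.End.mul_apply]

theorem KK_D (N : ℕ) (v : β →₀ ℝ) : KK D Dt C N (D v) = v - (zz Dt D C ^ N) v := by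
  rw [← D_KK (D := Dt) (Dt := D)]
  simp only [KK, LinearMap.smul_apply, LinearMap.comp_apply, map_smul, LinearMap.sum_apply,
    map_sum, zz_pow_D]

theorem zz_self (h : Adj D Dt) (v w : α →₀ ℝ) : ip (zz D Dt C v) w = ip v (zz D Dt C w) := by
  rw [zz_apply, zz_apply, ip_sub_left, ip_sub_right, ip_smul_left, ip_smul_right, h.ip,
    ip_comm v (D (Dt w)), h.ip, ip_comm (Dt w)]

theorem zz_pow_self (h : Adj D Dt) (k : ℕ) (v w : α →₀ ℝ) :
    ip ((zz D Dt C ^ k) v) w = ip v ((zz D Dt C ^ k) w) := by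
  induction k generalizing v w with
  | zero => simp
  | succ k ih =>
    rw [pow_succ, Module.End.mul_apply, ih, zz_self h, ← Module.End.mul_apply, ← pow_succ',
      pow_succ]

theorem zz_even (h : Adj D Dt) (N : ℕ) (p : α) :
    ((zz D Dt C ^ (N + N)) (Finsupp.single p 1)) p =
      ip ((zz D Dt C ^ N) (Finsupp.single p 1)) ((zz D Dt C ^ N) (Finsupp.single p 1)) := by
  rw [← ip_single p, zz_pow_self h, pow_add, Module.End.mul_apply]

theorem Adj.symm (h : Adj D Dt) : Adj Dt D := fun p q => (h q p).symm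

/-- one step of the contraction -/
theorem contract (h : Adj D Dt) (hC : 0 < C) (hC' : 0 < C')
    (hD : ∀ v, ip (D v) (D v) ≤ C * ip v v) (hD' : ∀ v, ip (D' v) (D' v) ≤ C' * ip v v)
    (v : α →₀ ℝ) (hv : D (D' v) = v) :
    ip (zz D Dt C v) (zz D Dt C v) ≤ (1 - (C * C')⁻¹) * ip v v := by
  have e : ip (zz D Dt C v) (zz D Dt C v) =
      ip v v - 2 * C⁻¹ * ip (Dt v) (Dt v) + C⁻¹ * C⁻¹ * ip (D (Dt v)) (D (Dt v)) := by
    rw [zz_apply, ip_sub_left, ip_sub_right, ip_sub_right, ip_smul_left, ip_smul_right,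
      ip_smul_right, ip_smul_left, h.ip (Dt v) v, ip_comm v (D (Dt v)), h.ip (Dt v) v]
    ring
  have h1 : C⁻¹ * C⁻¹ * ip (D (Dt v)) (D (Dt v)) ≤ C⁻¹ * ip (Dt v) (Dt v) := by
    calc C⁻¹ * C⁻¹ * ip (D (Dt v)) (D (Dt v)) ≤ C⁻¹ * C⁻¹ * (C * ip (Dt v) (Dt v)) :=
          mul_le_mul_of_nonneg_left (hD _) (by positivity)
      _ = C⁻¹ * ip (Dt v) (Dt v) := by field_simp
  -- lower bound of `|Dt v|`
  have h2 : ip v v ≤ C' * ip (Dt v) (Dt v) := by
    have a1 : ip v v = ip (D' v) (Dt v) := by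
      rw [← h.ip, hv]
    have a2 : 0 ≤ ip (C'⁻¹ • D' v - Dt v) (C'⁻¹ • D' v - Dt v) := ip_nonneg _
    rw [ip_sub_left, ip_sub_right, ip_sub_right, ip_smul_left, ip_smul_right, ip_smul_left,
      ip_smul_right, ip_comm (Dt v) (D' v), ← a1] at a2
    have a3 : C'⁻¹ * (C'⁻¹ * ip (D' v) (D' v)) ≤ C'⁻¹ * ip v v := by
      calc C'⁻¹ * (C'⁻¹ * ip (D' v) (D' v)) ≤ C'⁻¹ * (C'⁻¹ * (C' * ip v v)) := by
            have := hD' v
            gcongr
        _ = C'⁻¹ * ip v v := by field_simp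
    have a4 : C'⁻¹ * ip v v ≤ ip (Dt v) (Dt v) := by linarith
    calc ip v v = C' * (C'⁻¹ * ip v v) := by field_simp
      _ ≤ C' * ip (Dt v) (Dt v) := by gcongr
  rw [e]
  have h3 : (C * C')⁻¹ * ip v v ≤ C⁻¹ * ip (Dt v) (Dt v) := by
    calc (C * C')⁻¹ * ip v v ≤ (C * C')⁻¹ * (C' * ip (Dt v) (Dt v)) := by gcongr
      _ = C⁻¹ * ip (Dt v) (Dt v) := by field_simp
  nlinarith [h1, h3]

/-- the main pointwise statement -/
theorem main_pt (h : Adj D Dt) (hC : 0 < C) (hC' : 0 < C') (hCC : 1 ≤ C * C')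
    (hD : ∀ v, ip (D v) (D v) ≤ C * ip v v) (hD' : ∀ v, ip (D' v) (D' v) ≤ C' * ip v v)
    (P : Set α) (hP : ∀ v, ∀ p ∉ P, D v p = 0)
    (hDD : ∀ v : α →₀ ℝ, (∀ p ∉ P, v p = 0) → D (D' v) = v) (N : ℕ) :
    (∀ p ∈ P, 1 - (1 - (C * C')⁻¹) ^ N ≤ D (KK D Dt C (N + N) (Finsupp.single p 1)) p) ∧
    (∀ p ∉ P, D (KK D Dt C (N + N) (Finsupp.single p 1)) p = 0) ∧
    (∀ q, KK D Dt C (N + N) (D (Finsupp.single q 1)) q ≤ 1) ∧
    (∀ q, D (Finsupp.single q 1) = 0 → KK D Dt C (N + N) (D (Finsupp.single q 1)) q = 0) := by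
  classical
  refine ⟨fun p hp => ?_, fun p hp => hP _ p hp, fun q => ?_, fun q hq => by rw [hq]; simp⟩
  · rw [D_KK, Finsupp.sub_apply, zz_even h, Finsupp.single_eq_same]
    have key : ∀ k : ℕ, (∀ p' ∉ P, (zz D Dt C ^ k) (Finsupp.single p 1) p' = 0) ∧
        ip ((zz D Dt C ^ k) (Finsupp.single p 1)) ((zz D Dt C ^ k) (Finsupp.single p 1)) ≤
          (1 - (C * C')⁻¹) ^ k := by
      intro k
      induction k with
      | zero =>
        constructor
        · intro p' hp'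
          have : p ≠ p' := fun e => hp' (e ▸ hp)
          simp [Finsupp.single_apply, this]
        · simp only [pow_zero, Module.End.one_apply]
          rw [ip_single, Finsupp.single_eq_same]
      | succ k ih =>
        obtain ⟨i1, i2⟩ := ih
        rw [pow_succ', Module.End.mul_apply]
        constructor
        · intro p' hp'
          rw [zz_apply, Finsupp.sub_apply, i1 p' hp', Finsupp.smul_apply, hP _ p' hp']
          simp
        · refine (contract h hC hC' hD hD' _ (hDD _ i1)).trans ?_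
          rw [pow_succ']
          have h0 : 0 ≤ 1 - (C * C')⁻¹ := by
            rw [sub_nonneg]
            exact inv_le_one_of_one_le₀ hCC
          exact mul_le_mul_of_nonneg_left i2 h0
    linarith [(key N).2]
  · rw [KK_D, Finsupp.sub_apply, zz_even h.symm, Finsupp.single_eq_same]
    have := ip_nonneg ((zz Dt D C ^ N) (Finsupp.single q (1 : ℝ)))
    linarith

end power

end Pool.Agent.KS6_32.FI1
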