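import Pool.Graph.R_seed8.TH722.FI.CS
import Pool.Agent.KS6_32.FI1.Block

/-!
The sparse sequence of hybrid graphs, with the first moment bound in place of the second moment
bound. Adapted from the library module `TH722.FI.HP4` (project MP_572a3e_an).
-/

set_option autoImplicit false

namespace Pool.Agent.KS6_32.FI1
open MeasureTheory Set Filter Pool.Agent.TH722.FI Pool.Agent.TH722.FI.Jobs
open scoped Topology ENNReal

variable {r : ℕ} {X : Type*} [MeasurableSpace X] {μ : Measure X}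
  [IsProbabilityMeasure μ] [MulAction (FreeGroup (Fin r)) X]

theorem package1 [StandardBorelSpace X] (T : FreeGroup (Fin r) → X → X) (hC : Common μ T)
    (β : Fin r → X → FreeGroup (Fin r)) (hβ : ∀ i x, T (FreeGroup.of i) x = β i x • x)
    (hβ1 : ∀ i, Integrable (fun x => ((β i x).norm : ℝ)) μ)
    (α : Fin r → X → FreeGroup (Fin r)) (hα : ∀ i x, FreeGroup.of i • x = T (α i x) x)
    (hα1 : ∀ i, Integrable (fun x => ((α i x).norm : ℝ)) μ) (δ : ℝ) (hδ : 0 < δ) :
    ∃ (S : Finset (FreeGroup (Fin r))) (E : Fin r → Set X) (Bk : FreeGroup (Fin r) → Set X)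
      (q : ℕ) (A : ℕ → FreeGroup (Fin r) → Set X) (K : ℕ → X → Finset (FreeGroup (Fin r))),
      (∀ i, MeasurableSet (E i)) ∧ (∀ i, μ.real (E i)ᶜ ≤ δ) ∧ (∀ g, MeasurableSet (Bk g)) ∧
      (∀ (g : FreeGroup (Fin r)) (x : X), x ∈ Bk g ↔ g • x ∈ Bk g⁻¹) ∧
      (∑ g ∈ S, μ.real (Bk g) * ((g.norm : ℝ) + 1) ≤ δ) ∧
      (∀ j, GF (A j) S) ∧ A 0 = CayD X r ∧ Gs r ⊆ S ∧
      (∀ (g : FreeGroup (Fin r)) (x : X), x ∈ A q g ↔
        (x ∈ Bk g ∨ ∃ i, (x ∈ E i ∧ T (FreeGroup.of i) x = g • x) ∨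
        (T (FreeGroup.of i)⁻¹ x ∈ E i ∧ T (FreeGroup.of i)⁻¹ x = g • x))) ∧
      (∀ (g : FreeGroup (Fin r)) (x : X), x ∈ Bk g →
        ¬ ∃ i, (x ∈ E i ∧ T (FreeGroup.of i) x = g • x) ∨
        (T (FreeGroup.of i)⁻¹ x ∈ E i ∧ T (FreeGroup.of i)⁻¹ x = g • x)) ∧
      (∀ (x : X) (g : FreeGroup (Fin r)),
        Relation.ReflTransGen (fun y z => ∃ k : FreeGroup (Fin r), y ∈ A q k ∧ z = k • y)
          x (g • x)) ∧
      (∀ j < q, ClusterPair (A (j + 1)) (A j) (K j) S) := by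
  classical
  obtain ⟨c1, c2, c3, N, hN⟩ := cg_tree r
  obtain ⟨key, hkey⟩ := exists_measurableEmbedding_real X
  have hkm := hkey.measurable
  have hki := hkey.injective
  -- choice of δ1
  have hint : ∀ i, Integrable (fun x => 2 * (((β i x).norm : ℝ) + 1)) μ := by
    intro i
    exact ((hβ1 i).add (integrable_const 1)).const_mul 2
  have hδr : 0 < δ / (r + 1 : ℝ) := by positivity
  have hex : ∀ i, ∃ d > 0, ∀ s : Set X, μ.real s ≤ d →
      ∫ x in s, 2 * (((β i x).norm : ℝ) + 1) ∂μ ≤ δ / (r + 1 : ℝ) :=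
    fun i => abs_cont _ (hint i) (fun x => by positivity) _ hδr
  choose d hd0 hd using hex
  obtain ⟨δ1, hδ1, hδ1d, hδ1δ⟩ : ∃ δ1 > 0, (∀ i, δ1 ≤ d i) ∧ δ1 ≤ δ := by
    have hne : (insert δ (Finset.univ.image d)).Nonempty := ⟨δ, by simp⟩
    refine ⟨(insert δ (Finset.univ.image d)).min' hne, ?_, ?_, ?_⟩
    · rw [gt_iff_lt, Finset.lt_min'_iff]
      intro y hy
      simp only [Finset.mem_insert, Finset.mem_image, Finset.mem_univ, true_and] at hy
      rcases hy with rfl | ⟨i, rfl⟩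
      · exact hδ
      · exact hd0 i
    · intro i
      exact Finset.min'_le _ _ (by simp)
    · exact Finset.min'_le _ _ (by simp)
  -- M
  obtain ⟨M0, hM0⟩ := nice_exhaust T hC α hα hα1 (δ1 / 2) (half_pos hδ1)
  obtain ⟨M, hMM, hM⟩ : ∃ M, M0 ≤ M ∧ 1 ≤ M := ⟨max M0 1, le_max_left _ _, le_max_right _ _⟩
  have hbad := hM0 M hMM
  obtain ⟨R2, hR2⟩ : ∃ R2, R2 = 7 * M + 2 := ⟨_, rfl⟩
  obtain ⟨R3, hR3⟩ : ∃ R3, R3 = R2 + 2 * R2 * (N M * (2 * M + 1)) * (2 * M + 1) := ⟨_, rfl⟩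
  have hR23 : R2 ≤ R3 := by rw [hR3]; exact Nat.le_add_right _ _
  let S : Finset (FreeGroup (Fin r)) := (norm_finite r (2 * R3)).toFinset
  have hS : ∀ g : FreeGroup (Fin r), g.norm ≤ 2 * R3 → g ∈ S := by
    intro g hg; simpa [S] using hg
  obtain ⟨q', ν, hνm, hν⟩ := names (μ := μ) hC.mpU hC.freeU S (δ1 / 2) (half_pos hδ1)
  -- E
  let bad1 : Fin r → Set X := fun i => {x | ∃ b : FreeGroup (Fin r),
    T (FreeGroup.of i) x = b • x ∧ ¬ Nice (CG r) (TG T x) M 1 b}
  let bad2 : Set X := {x | ∃ g ∈ S, g ≠ 1 ∧ ν (g • x) = ν x}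
  have hbad1m : ∀ i, MeasurableSet (bad1 i) := by
    intro i
    have : bad1 i = ⋃ b : FreeGroup (Fin r), ({x | T (FreeGroup.of i) x = b • x} ∩
        {x | Nice (CG r) (TG T x) M 1 b}ᶜ) := by
      ext x
      simp [bad1]
    rw [this]
    refine MeasurableSet.iUnion fun b => ?_
    refine (measurableSet_eq_fun (hC.actT.mp _).measurable (hC.mpU b).measurable).inter ?_
    exact ((hg_meas T hC (fun _ => ∅) (fun _ => MeasurableSet.empty) key hkm 1 b).2.2.2.2.2.1
      M).compl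
  have hbad2m : MeasurableSet bad2 := by
    have : bad2 = ⋃ g ∈ S, ({x | ν (g • x) = ν x} ∩ {_x | g ≠ 1}) := by
      ext x
      simp only [bad2, mem_setOf_eq, mem_iUnion, mem_inter_iff, exists_prop]
      constructor
      · rintro ⟨g, h1, h2, h3⟩; exact ⟨g, h1, h3, h2⟩
      · rintro ⟨g, h1, h3, h2⟩; exact ⟨g, h1, h2, h3⟩
    rw [this]
    refine Finset.measurableSet_biUnion _ fun g _ => ?_
    exact (measurableSet_eq_fun (hνm.comp (hC.mpU g).measurable) hνm).inter (MeasurableSet.const _)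
  let E : Fin r → Set X := fun i => (bad1 i ∪ bad2)ᶜ
  have hEm : ∀ i, MeasurableSet (E i) := fun i => ((hbad1m i).union hbad2m).compl
  have hEc : ∀ i, μ.real (E i)ᶜ ≤ δ1 := by
    intro i
    have : (E i)ᶜ = bad1 i ∪ bad2 := compl_compl _
    rw [this]
    calc μ.real (bad1 i ∪ bad2) ≤ μ.real (bad1 i) + μ.real bad2 := measureReal_union_le _ _
      _ ≤ δ1 / 2 + δ1 / 2 := add_le_add (hbad i) hν
      _ = δ1 := by ring
  have hEnice : ∀ i, ∀ x ∈ E i, ∀ b, T (FreeGroup.of i) x = b • x →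
      Nice (CG r) (TG T x) M 1 b := by
    intro i x hx b hb
    by_contra hn
    exact hx (Or.inl ⟨b, hb, hn⟩)
  have hEname : ∀ i, ∀ x ∈ E i, ∀ g : FreeGroup (Fin r), g.norm ≤ 2 * R3 → ν (g • x) = ν x →
      g = 1 := by
    intro i x hx g hg hν'
    by_contra hn
    exact hx (Or.inr ⟨g, hS g hg, hn, hν'⟩)
  -- the chain
  let Ej : ℕ → Fin r → Set X := fun j i => {x | x ∈ E i ∧ (ν x).val * r + i.val < j}
  have hEjm : ∀ j i, MeasurableSet (Ej j i) := by
    intro j i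
    have : Ej j i = E i ∩ ν ⁻¹' {a | a.val * r + i.val < j} := by
      ext x; simp [Ej]
    rw [this]
    exact (hEm i).inter (hνm (MeasurableSet.of_discrete))
  have hEjE : ∀ j i, Ej j i ⊆ E i := fun j i x hx => hx.1
  have hcode : ∀ (a : Fin q') (i : Fin r), a.val * r + i.val < q' * r := by
    intro a i
    calc a.val * r + i.val < a.val * r + r := by have := i.isLt; omega
      _ = (a.val + 1) * r := by ring
      _ ≤ q' * r := Nat.mul_le_mul_right _ a.isLt
  have hEq : ∀ i, Ej (q' * r) i = E i := by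
    intro i
    ext x
    simp only [Ej, mem_setOf_eq, and_iff_left_iff_imp]
    intro _
    exact hcode _ _
  have hEq' : Ej (q' * r) = E := funext hEq
  have hE0 : ∀ i, Ej 0 i = ∅ := by
    intro i; ext x; simp [Ej]
  let A : ℕ → FreeGroup (Fin r) → Set X := fun j => HD T (Ej j) key
  have hnicej : ∀ j i, ∀ x ∈ Ej j i, ∀ b, T (FreeGroup.of i) x = b • x →
      Nice (CG r) (TG T x) M 1 b := fun j i x hx => hEnice i x (hEjE j i hx)
  have hMS : ∀ g : FreeGroup (Fin r), g.norm ≤ 2 * M + 1 → g ∈ S := by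
    intro g hg; apply hS; omega
  have hGF : ∀ j, GF (A j) S := fun j =>
    hd_GF T hC (Ej j) (hEjm j) key hkm hki M hM (hnicej j) S hMS
  have hcl : ∀ j, ∃ K : X → Finset (FreeGroup (Fin r)), ClusterPair (A (j + 1)) (A j) K S := by
    intro j
    let Q : Set X := {x | ∃ i, x ∈ E i ∧ (ν x).val * r + i.val = j}
    refine hd_cluster T hC (Ej j) (Ej (j + 1)) (hEjm _) (hEjm _) ?_ key hkm hki M hM (hnicej _) N
      hN R2 R3 hR2 hR3 Q ?_ ?_ ?_ S hS
    · intro i x hx
      exact ⟨hx.1, hx.2.trans (Nat.lt_succ_self j)⟩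
    · have : Q = ⋃ i, (E i ∩ ν ⁻¹' {a | a.val * r + i.val = j}) := by
        ext x; simp [Q]
      rw [this]
      exact MeasurableSet.iUnion fun i => (hEm i).inter (hνm (MeasurableSet.of_discrete))
    · intro i x hx hx'
      refine ⟨i, hx.1, ?_⟩
      have h1 := hx.2
      have h2 : ¬ ((ν x).val * r + i.val < j) := fun h => hx' ⟨hx.1, h⟩
      omega
    · rintro x ⟨i, hxi, hi⟩ g hg ⟨i', hxi', hi'⟩
      apply hEname i x hxi g hg
      have h1 : (ν (g • x)).val * r + i'.val = (ν x).val * r + i.val := by rw [hi, hi']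
      have hr : 0 < r := lt_of_le_of_lt (Nat.zero_le _) i.isLt
      apply Fin.ext
      have h2 : ((ν (g • x)).val * r + i'.val) / r = (ν (g • x)).val := by
        rw [Nat.add_comm, Nat.add_mul_div_right _ _ hr, Nat.div_eq_of_lt i'.isLt, Nat.zero_add]
      have h3 : ((ν x).val * r + i.val) / r = (ν x).val := by
        rw [Nat.add_comm, Nat.add_mul_div_right _ _ hr, Nat.div_eq_of_lt i.isLt, Nat.zero_add]
      rw [← h2, ← h3, h1]
  choose K hK using hcl
  let Bk : FreeGroup (Fin r) → Set X := fun g =>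
    {x | (HG T E key x).Adj 1 g ∧ ¬ (CC T E x).Adj 1 g}
  have hAq : A (q' * r) = HD T E key := by
    change HD T (Ej (q' * r)) key = HD T E key
    rw [hEq']
  refine ⟨S, E, Bk, q' * r, A, K, hEm, fun i => (hEc i).trans hδ1δ, ?_, ?_, ?_, hGF, ?_, ?_, ?_, ?_,
    ?_, fun j _ => hK j⟩
  · intro g
    have h1 := (hg_meas T hC E hEm key hkm 1 g).2.2.2.2.1
    have h2 := (hg_meas T hC E hEm key hkm 1 g).2.1
    have : Bk g = {x | (HG T E key x).Adj 1 g} ∩ {x | (CC T E x).Adj 1 g}ᶜ := by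
      ext x; simp [Bk]
    rw [this]
    exact h1.inter h2.compl
  · intro g x
    have h1 := (hg_nat T hC E key x g).1 1 g⁻¹
    have h2 := (tg_tree T hC x).2.2.2.2 E g 1 g⁻¹
    rw [one_mul, inv_mul_cancel] at h1 h2
    simp only [Bk, mem_setOf_eq]
    rw [h1, h2]
    constructor
    · rintro ⟨a, b⟩; exact ⟨a.symm, fun h => b h.symm⟩
    · rintro ⟨a, b⟩; exact ⟨a.symm, fun h => b h.symm⟩
  · have h1 := block_bound1 T hC E hEm key hkm hki β hβ hβ1 S
    refine h1.trans ?_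
    calc ∑ i, ∫ x in (E i)ᶜ, 2 * (((β i x).norm : ℝ) + 1) ∂μ
        ≤ ∑ _i : Fin r, δ / (r + 1 : ℝ) :=
          Finset.sum_le_sum fun i _ => hd i _ ((hEc i).trans (hδ1d i))
      _ = r * (δ / (r + 1 : ℝ)) := by simp
      _ ≤ δ := by
          rw [mul_div_assoc', div_le_iff₀ (by positivity)]
          nlinarith
  · exact hd_empty T hC key hki _ hE0
  · intro g hg
    rw [mem_Gs] at hg
    apply hS
    have : g.norm = 1 := by
      obtain ⟨i, rfl | rfl⟩ := hg
      · exact FreeGroup.norm_of i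
      · rw [FreeGroup.norm_inv_eq, FreeGroup.norm_of]
    omega
  · intro g x
    rw [hAq, ← cc_one T hC E x g]
    simp only [HD, Bk, mem_setOf_eq]
    constructor
    · intro h
      by_cases hc : (CC T E x).Adj 1 g
      · exact Or.inr hc
      · exact Or.inl ⟨h, hc⟩
    · rintro (h | h)
      · exact h.1
      · exact Or.inl h
  · intro g x hx h
    exact hx.2 ((cc_one T hC E x g).mpr h)
  · intro x g
    rw [hAq]
    exact hd_conn T hC E key hki x g

end Pool.Agent.KS6_32.FI1
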